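import Pool.Agent.Helper73.RF.GoalsD

/-! MP_c98eff_gt, project RF, packet D3: the rotation matrix. -/

set_option autoImplicit false

open Finset Pool.Agent.Helper47.RF

namespace Pool.Agent.Helper32.RF

open Pool.Agent.Helper73.RF

/-- evaluation at a point -/
noncomputable def evp {T : ℝ} (p : Om T) : (baC T).B →ₐ[ℝ] ℝ :=
  (show BB T →ₐ[ℝ] ℝ from
  { toFun := fun f => f.1 p
    map_one' := rfl
    map_mul' := fun _ _ => rfl
    map_zero' := rfl
    map_add' := fun _ _ => rfl
    commutes' := fun _ => rfl })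

lemma evp_ext {T : ℝ} (f g : (baC T).B) (h : ∀ p : Om T, evp p f = evp p g) : f = g := by
  apply Subtype.ext
  funext p
  exact h p

lemma evp_R {T : ℝ} (p : Om T) (a b : Fin 3) : evp p ((baC T).R a b) = rotf p.1.2.1 a b := rfl
lemma evp_X {T : ℝ} (p : Om T) (a b : Fin 3) : evp p ((baC T).X a b) = rotf p.1.1 a b := rfl

/-- numerator as a quadratic map -/
lemma im3_add (v w : HH) (a : Fin 3) : im3 (v + w) a = im3 v a + im3 w a := by
  fin_cases a <;> simp [im3]

lemma im3_smul (r : ℝ) (w : HH) (a : Fin 3) : im3 (r • w) a = r * im3 w a := by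
  fin_cases a <;> simp [im3]

lemma re_add' (v w : HH) : (v + w).re = v.re + w.re := rfl
lemma re_smul' (r : ℝ) (w : HH) : (r • w).re = r * w.re := rfl

lemma normSq_ne {q : HH} (hq : q ≠ 0) : Quaternion.normSq q ≠ 0 := by
  intro h; exact hq (Quaternion.normSq_eq_zero.1 h)

lemma rotf_diff {q : HH} (hq : q ≠ 0) (a b : Fin 3) :
    HasFDerivAt (fun q => rotf q a b) (fderiv ℝ (fun q => rotf q a b) q) q := by
  have h1 : ContDiffAt ℝ inf (fun q => rotf q a b) q :=
    (sm_rotf a b).cd.contDiffAt (isOpen_compl_singleton.mem_nhds hq)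
  exact (h1.differentiableAt (by simp)).hasFDerivAt

lemma fderiv_rotf {q : HH} (hq : q ≠ 0) (a b : Fin 3) (w : HH)
    (hw : (q * star w + w * star q).re = 0) :
    fderiv ℝ (fun q => rotf q a b) q w =
      im3 (w * qe b * star q + q * qe b * star w) a / Quaternion.normSq q := by
  have hc : HasDerivAt (fun t : ℝ => q + t • w) w 0 := by
    have := ((hasDerivAt_id (0:ℝ)).smul_const w).const_add q
    simpa using this
  have h0 : HasFDerivAt (fun q => rotf q a b) (fderiv ℝ (fun q => rotf q a b) q)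
      (q + (0:ℝ) • w) := by
    rw [zero_smul, add_zero]; exact rotf_diff hq a b
  have h1 : HasDerivAt (fun t : ℝ => rotf (q + t • w) a b)
      (fderiv ℝ (fun q => rotf q a b) q w) 0 :=
    HasFDerivAt.comp_hasDerivAt (f := fun t : ℝ => q + t • w) (l := fun q => rotf q a b) 0 h0 hc
  set A0 := im3 (q * qe b * star q) a with hA0
  set A1 := im3 (w * qe b * star q + q * qe b * star w) a with hA1
  set A2 := im3 (w * qe b * star w) a with hA2
  set n0 := Quaternion.normSq q with hn0
  set n2 := Quaternion.normSq w with hn2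
  have hf : (fun t : ℝ => rotf (q + t • w) a b) =
      fun t => (A0 + t * A1 + t ^ 2 * A2) / (n0 + t ^ 2 * n2) := by
    funext t
    have hst : star (t • w) = t • star w := by ext <;> simp
    unfold rotf
    congr 1
    · have e : (q + t • w) * qe b * star (q + t • w) =
          q * qe b * star q + t • (w * qe b * star q + q * qe b * star w) +
            (t ^ 2) • (w * qe b * star w) := by
        simp only [star_add, hst, add_mul, mul_add, smul_mul_assoc,
          mul_smul_comm, smul_add, smul_smul, pow_two]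
        abel
      rw [e, im3_add, im3_add, im3_smul, im3_smul]
    · have e1 : Quaternion.normSq (q + t • w) = ((q + t • w) * star (q + t • w)).re := by
        rw [Quaternion.self_mul_star]; rfl
      have e2 : n0 = (q * star q).re := by rw [hn0, Quaternion.self_mul_star]; rfl
      have e3 : n2 = (w * star w).re := by rw [hn2, Quaternion.self_mul_star]; rfl
      rw [e1, e2, e3]
      have e : (q + t • w) * star (q + t • w) =
          q * star q + t • (q * star w + w * star q) + (t ^ 2) • (w * star w) := by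
        simp only [star_add, hst, add_mul, mul_add, smul_mul_assoc,
          mul_smul_comm, smul_add, smul_smul, pow_two]
        abel
      rw [e, re_add', re_add', re_smul', re_smul', hw]; ring
  rw [hf] at h1
  have hn0' : n0 ≠ 0 := normSq_ne hq
  have h2 : HasDerivAt (fun t : ℝ => (A0 + t * A1 + t ^ 2 * A2) / (n0 + t ^ 2 * n2))
      (A1 / n0) 0 := by
    have hid := hasDerivAt_id (0:ℝ)
    have hnum : HasDerivAt (fun t : ℝ => A0 + t * A1 + t ^ 2 * A2) A1 0 := by
      have h3 := ((hid.mul_const A1).const_add A0).add ((hid.pow 2).mul_const A2)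
      refine h3.congr_deriv ?_
      simp
    have hden : HasDerivAt (fun t : ℝ => n0 + t ^ 2 * n2) 0 0 := by
      have h3 := ((hid.pow 2).mul_const n2).const_add n0
      refine h3.congr_deriv ?_
      simp
    have h4 := hnum.div hden (by simpa using hn0')
    refine h4.congr_deriv ?_
    simp
    field_simp
  exact h1.unique h2

/-- derivative of a function of `q` -/
lemma derf_q {T : ℝ} (X : W → W) (F : HH → ℝ) (p : Om T) (F' : HH →L[ℝ] ℝ)
    (hF : HasFDerivAt F F' p.1.2.1) :
    derf X (fun p : Om T => F p.1.2.1) p = F' (X p).2.1 := by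
  unfold derf
  have h1 : HasFDerivAt (fun p' : W => F p'.2.1)
      (F'.comp ((ContinuousLinearMap.fst ℝ HH ℝ).comp (ContinuousLinearMap.snd ℝ HH (HH × ℝ)))) p :=
    hF.comp (p : W) ((ContinuousLinearMap.fst ℝ HH ℝ).comp
      (ContinuousLinearMap.snd ℝ HH (HH × ℝ))).hasFDerivAt
  have h2 : exT (fun p : Om T => F p.1.2.1) =ᶠ[nhds (p : W)] fun p' : W => F p'.2.1 := by
    filter_upwards [(isOpen_Om T).mem_nhds p.2] with p' hp'
    rw [exT_of_mem _ hp']
  rw [h2.fderiv_eq, h1.fderiv]
  exact rfl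

lemma derf_x {T : ℝ} (X : W → W) (F : HH → ℝ) (p : Om T) (F' : HH →L[ℝ] ℝ)
    (hF : HasFDerivAt F F' p.1.1) :
    derf X (fun p : Om T => F p.1.1) p = F' (X p).1 := by
  unfold derf
  have h1 : HasFDerivAt (fun p' : W => F p'.1)
      (F'.comp (ContinuousLinearMap.fst ℝ HH (HH × ℝ))) p :=
    hF.comp (p : W) (ContinuousLinearMap.fst ℝ HH (HH × ℝ)).hasFDerivAt
  have h2 : exT (fun p : Om T => F p.1.1) =ᶠ[nhds (p : W)] fun p' : W => F p'.1 := by
    filter_upwards [(isOpen_Om T).mem_nhds p.2] with p' hp'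
    rw [exT_of_mem _ hp']
  rw [h2.fderiv_eq, h1.fderiv]; rfl

lemma tU {T : ℝ} (p : Om T) (k a b : Fin 3) : evp p ((baC T).U k ((baC T).R a b)) =
    fderiv ℝ (fun q => rotf q a b) p.1.2.1 (p.1.2.1 * ((1 / 2 : ℝ) • qe k) + 0 * p.1.2.1) :=
  derf_q _ (fun q => rotf q a b) p _ (rotf_diff p.2.2.1 a b)

lemma tV {T : ℝ} (p : Om T) (k a b : Fin 3) : evp p ((baC T).V k ((baC T).R a b)) =
    fderiv ℝ (fun q => rotf q a b) p.1.2.1 (p.1.2.1 * 0 + ((-(1 / 2) : ℝ) • qe k) * p.1.2.1) :=
  derf_q _ (fun q => rotf q a b) p _ (rotf_diff p.2.2.1 a b)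

lemma tE {T : ℝ} (p : Om T) (k a b : Fin 3) : evp p ((baC T).E k ((baC T).R a b)) =
    fderiv ℝ (fun q => rotf q a b) p.1.2.1 (p.1.2.1 * 0 + 0 * p.1.2.1) :=
  derf_q _ (fun q => rotf q a b) p _ (rotf_diff p.2.2.1 a b)

lemma tD {T : ℝ} (p : Om T) (a b : Fin 3) : evp p ((baC T).Dt ((baC T).R a b)) =
    fderiv ℝ (fun q => rotf q a b) p.1.2.1 (p.1.2.1 * 0 + 0 * p.1.2.1) :=
  derf_q _ (fun q => rotf q a b) p _ (rotf_diff p.2.2.1 a b)

lemma xE {T : ℝ} (p : Om T) (k a b : Fin 3) : evp p ((baC T).E k ((baC T).X a b)) =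
    fderiv ℝ (fun q => rotf q a b) p.1.1 (p.1.1 * qe k) :=
  derf_x _ (fun q => rotf q a b) p _ (rotf_diff p.2.1 a b)

lemma xU {T : ℝ} (p : Om T) (k a b : Fin 3) : evp p ((baC T).U k ((baC T).X a b)) =
    fderiv ℝ (fun q => rotf q a b) p.1.1 (p.1.1 * 0) :=
  derf_x _ (fun q => rotf q a b) p _ (rotf_diff p.2.1 a b)

lemma xV {T : ℝ} (p : Om T) (k a b : Fin 3) : evp p ((baC T).V k ((baC T).X a b)) =
    fderiv ℝ (fun q => rotf q a b) p.1.1 (p.1.1 * 0) :=
  derf_x _ (fun q => rotf q a b) p _ (rotf_diff p.2.1 a b)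

lemma xD {T : ℝ} (p : Om T) (a b : Fin 3) : evp p ((baC T).Dt ((baC T).X a b)) =
    fderiv ℝ (fun q => rotf q a b) p.1.1 (p.1.1 * 0) :=
  derf_x _ (fun q => rotf q a b) p _ (rotf_diff p.2.1 a b)

/-- right invariant direction -/
lemma dir_R {q : HH} (hq : q ≠ 0) (k a b : Fin 3) :
    fderiv ℝ (fun q => rotf q a b) q (q * qe k) = 2 * ∑ c, Pool.Agent.Helper73.RF.eps k b c * rotf q a c := by
  rw [fderiv_rotf hq a b (q * qe k) (by fin_cases k <;> simp [qe] <;> ring), div_eq_iff (normSq_ne hq)]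
  simp only [rotf, Fin.sum_univ_three]
  have hn := normSq_ne hq
  have e : ∀ x y z u v w : ℝ, 2 * (x * (u / Quaternion.normSq q) + y * (v / Quaternion.normSq q) +
      z * (w / Quaternion.normSq q)) * Quaternion.normSq q = 2 * (x * u + y * v + z * w) := by
    intro x y z u v w
    field_simp
  rw [e]
  fin_cases k <;> fin_cases b <;> fin_cases a <;> simp [im3, qe, Pool.Agent.Helper73.RF.eps] <;> ring

/-- left invariant direction -/
lemma dir_L {q : HH} (hq : q ≠ 0) (k a b : Fin 3) :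
    fderiv ℝ (fun q => rotf q a b) q (qe k * q) = -2 * ∑ c, Pool.Agent.Helper73.RF.eps k a c * rotf q c b := by
  rw [fderiv_rotf hq a b (qe k * q) (by fin_cases k <;> simp [qe] <;> ring), div_eq_iff (normSq_ne hq)]
  simp only [rotf, Fin.sum_univ_three]
  have hn := normSq_ne hq
  have e : ∀ x y z u v w : ℝ, -2 * (x * (u / Quaternion.normSq q) + y * (v / Quaternion.normSq q) +
      z * (w / Quaternion.normSq q)) * Quaternion.normSq q = -2 * (x * u + y * v + z * w) := by
    intro x y z u v w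
    field_simp
  rw [e]
  fin_cases k <;> fin_cases b <;> fin_cases a <;> simp [im3, qe, Pool.Agent.Helper73.RF.eps] <;> ring

lemma den_ne {q : HH} (hq : q ≠ 0) : q.re ^ 2 + q.imI ^ 2 + q.imJ ^ 2 + q.imK ^ 2 ≠ 0 := by
  have := normSq_ne hq
  rwa [Quaternion.normSq_def'] at this

lemma rot_row {q : HH} (hq : q ≠ 0) (a b : Fin 3) :
    ∑ c, rotf q a c * rotf q b c = if a = b then 1 else 0 := by
  have hn := den_ne hq
  simp only [rotf_formula, Fin.sum_univ_three]
  fin_cases a <;> fin_cases b <;> simp <;> field_simp <;> ring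

lemma rot_col {q : HH} (hq : q ≠ 0) (a b : Fin 3) :
    ∑ c, rotf q c a * rotf q c b = if a = b then 1 else 0 := by
  have hn := den_ne hq
  simp only [rotf_formula, Fin.sum_univ_three]
  fin_cases a <;> fin_cases b <;> simp <;> field_simp <;> ring

lemma rot_cross {q : HH} (hq : q ≠ 0) (a b l : Fin 3) :
    ∑ c, ∑ d, Pool.Agent.Helper73.RF.eps c d l * (rotf q a c * rotf q b d) =
      ∑ i, Pool.Agent.Helper73.RF.eps a b i * rotf q i l := by
  have hn := den_ne hq
  simp only [rotf_formula, Fin.sum_univ_three]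
  fin_cases a <;> fin_cases b <;> fin_cases l <;> simp [Pool.Agent.Helper73.RF.eps] <;> field_simp <;> ring

/-- `q e_k = sum R_lk e_l q` -/
lemma rot_mul {q : HH} (hq : q ≠ 0) (k : Fin 3) : q * qe k = ∑ l, rotf q l k • (qe l * q) := by
  have hn := den_ne hq
  simp only [rotf_formula, Fin.sum_univ_three]
  fin_cases k <;> ext <;> simp [qe] <;> field_simp <;> ring

lemma evp_sum {T : ℝ} (p : Om T) (f : Fin 3 → (baC T).B) : evp p (∑ c, f c) = ∑ c, evp p (f c) :=
  map_sum _ _ _

lemma evp_smul {T : ℝ} (p : Om T) (r : ℝ) (f : (baC T).B) : evp p (r • f) = r * evp p f :=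
  map_smul _ _ _

lemma evp_mul {T : ℝ} (p : Om T) (f g : (baC T).B) : evp p (f * g) = evp p f * evp p g :=
  map_mul _ _ _

lemma evp_ite {T : ℝ} (p : Om T) (a b : Fin 3) :
    evp p (if a = b then (1 : (baC T).B) else 0) = if a = b then 1 else 0 := by
  split_ifs
  · exact map_one _
  · exact map_zero _

lemma evp_U {T : ℝ} (p : Om T) (k : Fin 3) (f : (baC T).B) : evp p ((baC T).U k f) =
    fderiv ℝ (exT (f : BB T).1) p ((p.1.1 * 0, p.1.2.1 * ((1 / 2 : ℝ) • qe k) + 0 * p.1.2.1, (0 : ℝ)) : W) :=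
  rfl

lemma evp_V {T : ℝ} (p : Om T) (k : Fin 3) (f : (baC T).B) : evp p ((baC T).V k f) =
    fderiv ℝ (exT (f : BB T).1) p
      ((p.1.1 * 0, p.1.2.1 * 0 + ((-(1 / 2) : ℝ) • qe k) * p.1.2.1, (0 : ℝ)) : W) :=
  rfl

theorem d3 : D3Stmt := by
  intro T
  refine ⟨?_, ?_, ?_, ?_, ?_, ?_, ?_, ?_, ?_, ?_, ?_, ?_, ?_⟩
  · intro k a b
    apply evp_ext
    intro p
    rw [tU, evp_sum]
    simp only [evp_smul, evp_R]
    rw [zero_mul, add_zero, mul_smul_comm, map_smul, dir_R p.2.2.1, smul_eq_mul]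
    ring
  · intro k a b
    apply evp_ext
    intro p
    rw [tV, evp_sum]
    simp only [evp_smul, evp_R]
    rw [mul_zero, zero_add, smul_mul_assoc, map_smul, dir_L p.2.2.1, smul_eq_mul]
    ring
  · intro k a b
    apply evp_ext
    intro p
    rw [tE, mul_zero, zero_mul, add_zero, map_zero, map_zero]
  · intro a b
    apply evp_ext
    intro p
    rw [tD, mul_zero, zero_mul, add_zero, map_zero, map_zero]
  · intro k a b
    apply evp_ext
    intro p
    rw [xE, evp_smul, evp_sum]
    simp only [evp_smul, evp_X]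
    rw [dir_R p.2.1]
  · intro k a b
    apply evp_ext
    intro p
    rw [xU, mul_zero, map_zero, map_zero]
  · intro k a b
    apply evp_ext
    intro p
    rw [xV, mul_zero, map_zero, map_zero]
  · intro a b
    apply evp_ext
    intro p
    rw [xD, mul_zero, map_zero, map_zero]
  · intro a b
    apply evp_ext
    intro p
    rw [evp_ite, evp_sum]
    simp only [evp_mul, evp_R]
    exact rot_row p.2.2.1 a b
  · intro a b
    apply evp_ext
    intro p
    rw [evp_ite, evp_sum]
    simp only [evp_mul, evp_R]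
    exact rot_col p.2.2.1 a b
  · intro a b
    apply evp_ext
    intro p
    rw [evp_ite, evp_sum]
    simp only [evp_mul, evp_X]
    exact rot_col p.2.1 a b
  · intro a b l
    apply evp_ext
    intro p
    rw [evp_sum, evp_sum]
    simp only [evp_sum, evp_smul, evp_mul, evp_R]
    exact rot_cross p.2.2.1 a b l
  · intro k f
    apply evp_ext
    intro p
    rw [map_neg, evp_sum, evp_U]
    simp only [evp_mul, evp_R, evp_V]
    have h1 : ((p.1.1 * 0, p.1.2.1 * ((1 / 2 : ℝ) • qe k) + 0 * p.1.2.1, (0 : ℝ)) : W) =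
        ∑ l, (-rotf p.1.2.1 l k) •
          ((p.1.1 * 0, p.1.2.1 * 0 + ((-(1 / 2) : ℝ) • qe l) * p.1.2.1, (0 : ℝ)) : W) := by
      simp only [Fin.sum_univ_three, mul_zero, zero_mul, add_zero, zero_add, mul_smul_comm,
        smul_mul_assoc, Prod.smul_mk, Prod.mk_add_mk, smul_zero]
      rw [rot_mul p.2.2.1 k, Fin.sum_univ_three]
      refine Prod.ext rfl (Prod.ext ?_ rfl)
      simp only
      module
    rw [h1, map_sum]
    simp only [map_smul, smul_eq_mul, neg_mul, Finset.sum_neg_distrib]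

end Pool.Agent.Helper32.RF
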