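import Pool.Agent.Helper64.RF.GoalsF

/-! MP_c98eff_gt, project RF, packet JAC: the Jacobian of the cone map. -/

open Quaternion MeasureTheory

open scoped RealInnerProductSpace

namespace Pool.Agent.Helper32.RF

open Pool.Agent.Helper64.RF

/-- coordinates -/
noncomputable def crd (q : ℍ[ℝ]) : Fin 4 → ℝ := ![q.re, q.imI, q.imJ, q.imK]

/-- matrix with given rows -/
noncomputable def Am (w : Fin 4 → ℍ[ℝ]) : Matrix (Fin 4) (Fin 4) ℝ := Matrix.of fun j => crd (w j)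

/-- the standard basis -/
noncomputable def bq : Fin 4 → ℍ[ℝ] :=
  ![1, iot (Pi.single 0 1), iot (Pi.single 1 1), iot (Pi.single 2 1)]

lemma bq_succ (k : Fin 3) : bq k.succ = iot (Pi.single k 1) := by
  fin_cases k <;> rfl

/-- the basis -/
noncomputable def bas : Module.Basis (Fin 4) ℝ ℍ[ℝ] := QuaternionAlgebra.basisOneIJK (-1 : ℝ) 0 (-1)

lemma bas_repr (q : ℍ[ℝ]) (i : Fin 4) : bas.repr q i = crd q i := by
  have := QuaternionAlgebra.coe_basisOneIJK_repr (c₁ := (-1 : ℝ)) (c₂ := 0) (c₃ := -1) q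
  exact congrFun this i

lemma bas_eq (j : Fin 4) : bas j = bq j := by
  rw [Module.Basis.apply_eq_iff]
  ext i
  rw [bas_repr]
  fin_cases j <;> fin_cases i <;> simp [bq, crd]

lemma det_eq (Λ : ℍ[ℝ] →ₗ[ℝ] ℍ[ℝ]) : LinearMap.det Λ = (Am (fun j => Λ (bq j))).det := by
  rw [← LinearMap.det_toMatrix bas, ← Matrix.det_transpose]
  congr 1
  ext i j
  rw [Matrix.transpose_apply, LinearMap.toMatrix_apply, bas_repr, bas_eq]
  rfl

lemma inner_crd (p q : ℍ[ℝ]) : ⟪p, q⟫ = ∑ k, crd p k * crd q k := by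
  rw [Quaternion.inner_def, Fin.sum_univ_four]
  simp [crd]

lemma gram (w : Fin 4 → ℍ[ℝ]) : (Am w).det ^ 2 = (Matrix.of fun i j => ⟪w i, w j⟫).det := by
  rw [pow_two]
  nth_rewrite 2 [← Matrix.det_transpose]
  rw [← Matrix.det_mul]
  congr 1
  ext i j
  rw [Matrix.mul_apply, Matrix.of_apply, inner_crd]
  rfl

lemma norm_crd_le (q : ℍ[ℝ]) : ‖crd q‖ ≤ ‖q‖ := by
  rw [pi_norm_le_iff_of_nonneg (norm_nonneg _)]
  intro i
  have h := norm_sq_eq q
  simp only [Pool.Agent.Helper64.RF.sq, Pool.Agent.Helper64.RF.im, Matrix.cons_val_zero, Matrix.cons_val_one, Matrix.cons_val] at h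
  have h2 : ‖crd q i‖ ^ 2 ≤ ‖q‖ ^ 2 := by
    rw [Real.norm_eq_abs, sq_abs, h]
    fin_cases i <;> simp [crd] <;> nlinarith [sq_nonneg q.re, sq_nonneg q.imI,
      sq_nonneg q.imJ, sq_nonneg q.imK]
  exact (pow_le_pow_iff_left₀ (norm_nonneg _) (norm_nonneg _) two_ne_zero).1 h2

lemma det_bound (m : Fin 4 → Fin 4 → ℝ) :
    ‖(Matrix.detRowAlternating (R := ℝ) (n := Fin 4)).toMultilinearMap m‖ ≤ 24 * ∏ i, ‖m i‖ := by
  show ‖(Matrix.of m).det‖ ≤ _
  rw [Matrix.det_apply]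
  refine (norm_sum_le _ _).trans ?_
  have h1 : ∀ σ : Equiv.Perm (Fin 4), ‖Equiv.Perm.sign σ • ∏ i, Matrix.of m (σ i) i‖ ≤ ∏ i, ‖m i‖ := by
    intro σ
    have h2 : ‖Equiv.Perm.sign σ • ∏ i, Matrix.of m (σ i) i‖ = ∏ i, ‖m (σ i) i‖ := by
      rcases Int.units_eq_one_or (Equiv.Perm.sign σ) with h | h
      · rw [h, one_smul, norm_prod]; rfl
      · rw [h]; simp [norm_prod]
    rw [h2]
    calc ∏ i, ‖m (σ i) i‖ ≤ ∏ i, ‖m (σ i)‖ := by
          apply Finset.prod_le_prod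
          · intro i _; exact norm_nonneg _
          · intro i _; exact norm_le_pi_norm _ _
      _ = ∏ i, ‖m i‖ := Equiv.prod_comp σ (fun i => ‖m i‖)
  refine (Finset.sum_le_card_nsmul _ _ _ (fun σ _ => h1 σ)).trans ?_
  rw [Finset.card_univ, Fintype.card_perm, Fintype.card_fin, nsmul_eq_mul]
  norm_num [Nat.factorial]

lemma det_diff (w w' : Fin 4 → ℍ[ℝ]) (M δ : ℝ) (hM : 0 ≤ M) (hδ : 0 ≤ δ) (hw : ∀ i, ‖w i‖ ≤ M)
    (hw' : ∀ i, ‖w' i‖ ≤ M) (hd : ∀ i, ‖w i - w' i‖ ≤ δ) :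
    |(Am w).det - (Am w').det| ≤ 96 * M ^ 3 * δ := by
  have h := MultilinearMap.norm_image_sub_le_of_bound
    (Matrix.detRowAlternating (R := ℝ) (n := Fin 4)).toMultilinearMap (by norm_num) det_bound
    (fun i => crd (w i)) (fun i => crd (w' i))
  have e1 : (Matrix.detRowAlternating (R := ℝ) (n := Fin 4)).toMultilinearMap (fun i => crd (w i)) =
    (Am w).det := rfl
  have e2 : (Matrix.detRowAlternating (R := ℝ) (n := Fin 4)).toMultilinearMap (fun i => crd (w' i)) =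
    (Am w').det := rfl
  rw [e1, e2, Real.norm_eq_abs] at h
  refine h.trans ?_
  have n1 : ‖fun i => crd (w i)‖ ≤ M := by
    rw [pi_norm_le_iff_of_nonneg hM]
    exact fun i => (norm_crd_le _).trans (hw i)
  have n2 : ‖fun i => crd (w' i)‖ ≤ M := by
    rw [pi_norm_le_iff_of_nonneg hM]
    exact fun i => (norm_crd_le _).trans (hw' i)
  have n3 : ‖(fun i => crd (w i)) - fun i => crd (w' i)‖ ≤ δ := by
    rw [pi_norm_le_iff_of_nonneg hδ]
    intro i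
    have e : ((fun i => crd (w i)) - fun i => crd (w' i)) i = crd (w i - w' i) := by
      funext k
      fin_cases k <;> simp [crd]
    rw [e]
    exact (norm_crd_le _).trans (hd i)
  have n4 : max ‖fun i => crd (w i)‖ ‖fun i => crd (w' i)‖ ≤ M := max_le n1 n2
  rw [Fintype.card_fin]
  calc 24 * ((4 : ℕ) : ℝ) * max ‖fun i => crd (w i)‖ ‖fun i => crd (w' i)‖ ^ (4 - 1) *
        ‖(fun i => crd (w i)) - fun i => crd (w' i)‖ ≤ 24 * ((4 : ℕ) : ℝ) * M ^ (4 - 1) * δ := by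
        gcongr
    _ = 96 * M ^ 3 * δ := by norm_num

/-- left multiplication -/
noncomputable def Lx (x : ℍ[ℝ]) : ℍ[ℝ] →ₗ[ℝ] ℍ[ℝ] := LinearMap.mulLeft ℝ x

lemma inner_mul (x p q : ℍ[ℝ]) : ⟪x * p, x * q⟫ = ‖x‖ ^ 2 * ⟪p, q⟫ := by
  rw [norm_sq_eq, inner_crd, inner_crd, Fin.sum_univ_four, Fin.sum_univ_four]
  simp [crd, Pool.Agent.Helper64.RF.sq, Pool.Agent.Helper64.RF.im]
  ring

lemma inner_bq (i j : Fin 4) : ⟪bq i, bq j⟫ = if i = j then 1 else 0 := by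
  rw [inner_crd, Fin.sum_univ_four]
  fin_cases i <;> fin_cases j <;> simp [crd, bq]

lemma abs_det_Lx (x : ℍ[ℝ]) : |LinearMap.det (Lx x)| = ‖x‖ ^ 4 := by
  have h : (LinearMap.det (Lx x)) ^ 2 = (‖x‖ ^ 4) ^ 2 := by
    rw [det_eq, gram]
    have e : (Matrix.of fun i j => ⟪(Lx x) (bq i), (Lx x) (bq j)⟫) =
        (‖x‖ ^ 2) • (1 : Matrix (Fin 4) (Fin 4) ℝ) := by
      ext i j
      rw [Matrix.of_apply]
      show ⟪x * bq i, x * bq j⟫ = _
      rw [inner_mul, inner_bq, Matrix.smul_apply, Matrix.one_apply, smul_eq_mul]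
    rw [e, Matrix.det_smul, Matrix.det_one, Fintype.card_fin]
    ring
  have h2 := congrArg Real.sqrt h
  rw [Real.sqrt_sq_eq_abs, Real.sqrt_sq_eq_abs, abs_of_nonneg (by positivity : (0:ℝ) ≤ ‖x‖ ^ 4)] at h2
  exact h2

lemma fderiv_norm_mul (x q : ℍ[ℝ]) (hx : x ≠ 0) :
    fderiv ℝ (fun y : ℍ[ℝ] => ‖y‖) x (x * q) = ‖x‖ * q.re := by
  have hd0 : ContDiffAt ℝ 1 (fun y : ℍ[ℝ] => ‖y‖) x := contDiffAt_norm ℝ hx
  have hd : DifferentiableAt ℝ (fun y : ℍ[ℝ] => ‖y‖) x := hd0.differentiableAt (by simp)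
  have h1 := (hd.hasFDerivAt.pow 2).fderiv
  have h2 := (hasStrictFDerivAt_norm_sq x).hasFDerivAt.fderiv
  rw [h1] at h2
  have h4 := congrArg (fun A : ℍ[ℝ] →L[ℝ] ℝ => A (x * q)) h2
  simp only [_root_.smul_apply, innerSL_apply_apply, smul_eq_mul] at h4
  have h5 : ⟪x, x * q⟫ = ‖x‖ ^ 2 * q.re := by
    have := inner_mul x 1 q
    rw [mul_one] at this
    rw [this, inner_crd, Fin.sum_univ_four]
    simp [crd]
  rw [h5] at h4
  have hn : ‖x‖ ≠ 0 := norm_ne_zero_iff.2 hx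
  simp only [nsmul_eq_mul] at h4
  apply mul_left_cancel₀ hn
  norm_num at h4
  linarith

lemma sq_single (k : Fin 3) : Pool.Agent.Helper64.RF.sq (Pi.single k 1) = 1 := by
  fin_cases k <;> simp [Pool.Agent.Helper64.RF.sq]

lemma im_iot' (v : W) : Pool.Agent.Helper64.RF.im (iot v) = v := im_iot v

theorem jac (cay : CAY) : JAC := by
  intro C0 R hC0 hR
  refine ⟨96 * (1 + Real.sqrt C0 + (1 + R ^ 2)) ^ 3 * (1 + R ^ 2), by positivity, ?_⟩
  intro g ε Φ Y hg hup hε0 hε1 hD x hx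
  obtain ⟨hx0, hxR⟩ := hx
  obtain ⟨-, -, -, c4, -, c6, c7⟩ := cay
  have hn : 0 < ‖x‖ := norm_pos_iff.2 hx0
  have hS1 : 2 * ‖x‖ ≤ (1 + R ^ 2) * (‖x‖ + x.re) := by nlinarith
  have hS : 0 < ‖x‖ + x.re := by
    by_contra hcon
    push Not at hcon
    have : (1 + R ^ 2) * (‖x‖ + x.re) ≤ 0 := mul_nonpos_of_nonneg_of_nonpos (by positivity) hcon
    linarith
  obtain ⟨hX, hnn⟩ := c6 x hS
  obtain ⟨hxi, hxix, hJ⟩ := c7 x hS
  set ξ := xi x with hξ
  have hnnR : nn ξ ≤ 1 + R ^ 2 := by rw [hnn, div_le_iff₀ hS]; linarith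
  have hnn1 : 0 < nn ξ := by rw [hnn]; positivity
  have hsq : Pool.Agent.Helper64.RF.sq ξ ≤ R ^ 2 := by unfold nn at hnnR; linarith
  have hns : ContDiffAt ℝ (⊤ : ℕ∞) (fun y : ℍ[ℝ] => ‖y‖) x := contDiffAt_norm ℝ hx0
  have hsm : ContDiffAt ℝ (⊤ : ℕ∞) (Fh Φ) x := hns.smul (hD.smooth.contDiffAt.comp x hxi)
  refine ⟨hsm, ?_⟩
  have hdxi : HasFDerivAt xi (fderiv ℝ xi x) x := (hxi.differentiableAt (by simp)).hasFDerivAt
  have hdΦ : HasFDerivAt Φ (fderiv ℝ Φ ξ) ξ :=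
    (hD.smooth.contDiffAt.differentiableAt (by simp)).hasFDerivAt
  have hdn : HasFDerivAt (fun y : ℍ[ℝ] => ‖y‖) (fderiv ℝ (fun y : ℍ[ℝ] => ‖y‖) x) x :=
    (hns.differentiableAt (by simp)).hasFDerivAt
  have hcomp : HasFDerivAt (fun y => Φ (xi y)) ((fderiv ℝ Φ ξ).comp (fderiv ℝ xi x)) x :=
    hdΦ.comp x hdxi
  have hF := (hdn.smul hcomp).fderiv
  have hF2 : fderiv ℝ (Fh Φ) x = ‖x‖ • (fderiv ℝ Φ ξ).comp (fderiv ℝ xi x) +
      (fderiv ℝ (fun y : ℍ[ℝ] => ‖y‖) x).smulRight (Φ ξ) := hF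
  set Z : W → ℍ[ℝ] := fun v => fderiv ℝ Φ ξ (fderiv ℝ xi x (x * iot v)) with hZ
  have hL : ∀ q, fderiv ℝ (Fh Φ) x (x * q) =
      ‖x‖ • (q.re • Φ ξ + Z (Pool.Agent.Helper64.RF.im q)) := by
    intro q
    have h1 : x * q = q.re • x + x * iot (Pool.Agent.Helper64.RF.im q) := by
      conv_lhs => rw [← re_add_iot_im q, mul_add, ← Quaternion.coe_commutes,
        Quaternion.coe_mul_eq_smul]
    have h2 : fderiv ℝ xi x (x * q) = fderiv ℝ xi x (x * iot (Pool.Agent.Helper64.RF.im q)) := by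
      rw [h1, map_add, map_smul, hxix, smul_zero, zero_add]
    rw [hF2]
    simp only [_root_.add_apply, _root_.smul_apply, ContinuousLinearMap.comp_apply,
      ContinuousLinearMap.smulRight_apply]
    rw [h2, fderiv_norm_mul x q hx0, hZ, smul_add, mul_smul, add_comm]
  -- the reduced map
  set A : ℍ[ℝ] →ₗ[ℝ] ℍ[ℝ] := ((fderiv ℝ (Fh Φ) x : ℍ[ℝ] →L[ℝ] ℍ[ℝ]) : ℍ[ℝ] →ₗ[ℝ] ℍ[ℝ]) with hA
  set Λ : ℍ[ℝ] →ₗ[ℝ] ℍ[ℝ] := ‖x‖⁻¹ • (A ∘ₗ Lx x) with hΛ
  have hΛq : ∀ q, Λ q = q.re • Φ ξ + Z (Pool.Agent.Helper64.RF.im q) := by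
    intro q
    show ‖x‖⁻¹ • (fderiv ℝ (Fh Φ) x (x * q)) = _
    rw [hL q, smul_smul, inv_mul_cancel₀ hn.ne', one_smul]
  have hAL : A ∘ₗ Lx x = ‖x‖ • Λ := by
    rw [hΛ, smul_smul, mul_inv_cancel₀ hn.ne', one_smul]
  have hdetA : |LinearMap.det A| = |LinearMap.det Λ| := by
    have h1 := congrArg (fun B => |LinearMap.det B|) hAL
    simp only [LinearMap.det_comp, LinearMap.det_smul, abs_mul, abs_det_Lx, Quaternion.finrank_eq_four,
      abs_pow, abs_norm] at h1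
    have h4 : (0:ℝ) < ‖x‖ ^ 4 := by positivity
    rw [mul_comm] at h1
    exact mul_left_cancel₀ h4.ne' h1
  have hdet : |(fderiv ℝ (Fh Φ) x).det| = |(Am (fun j => Λ (bq j))).det| := by
    rw [← det_eq, ← hdetA]
  set w0 : Fin 4 → ℍ[ℝ] := Fin.cons (Φ ξ) (fun k : Fin 3 => Y ξ (Pi.single k 1)) with hw0
  have w00 : w0 0 = Φ ξ := rfl
  have w0s : ∀ k : Fin 3, w0 k.succ = Y ξ (Pi.single k 1) := fun k => rfl
  have v0 : Λ (bq 0) = Φ ξ := by
    rw [hΛq]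
    have e1 : (bq 0).re = 1 := rfl
    have e2 : Pool.Agent.Helper64.RF.im (bq 0) = 0 := by
      funext i
      fin_cases i <;> simp [bq, Pool.Agent.Helper64.RF.im]
    rw [e1, e2, hZ]
    simp [iot_zero]
  have vs : ∀ k : Fin 3, Λ (bq k.succ) = Z (Pi.single k 1) := by
    intro k
    rw [hΛq, bq_succ, im_iot', iot_re, zero_smul, zero_add]
  -- the frame vectors
  have hYn : ∀ k : Fin 3, ‖Y ξ (Pi.single k 1)‖ ≤ Real.sqrt C0 := by
    intro k
    apply Real.le_sqrt_of_sq_le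
    rw [← real_inner_self_eq_norm_sq, hD.gram]
    have hXne : X ξ ≠ 0 := by
      rw [hX]; exact smul_ne_zero (by positivity) hx0
    have := hup (X ξ) hXne (Pi.single k 1)
    rw [sq_single, mul_one] at this
    exact this
  have hZY : ∀ k : Fin 3, ‖Z (Pi.single k 1) - Y ξ (Pi.single k 1)‖ ≤ ε * (1 + R ^ 2) := by
    intro k
    have h1 := hD.der ξ hsq (fderiv ℝ xi x (x * iot (Pi.single k 1)))
    rw [hJ] at h1
    refine h1.trans ?_
    apply mul_le_mul_of_nonneg_left _ hε0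
    have h2 := c4 ξ (fderiv ℝ xi x (x * iot (Pi.single k 1)))
    rw [hJ, sq_single] at h2
    set a := fderiv ℝ xi x (x * iot (Pi.single k 1)) with ha
    have h3 := norm_sq_le_sq a
    have h4 : Pool.Agent.Helper64.RF.sq a = (nn ξ / 2) ^ 2 := by
      field_simp at h2
      nlinarith
    rw [h4] at h3
    have h5 : ‖a‖ ≤ nn ξ / 2 := (pow_le_pow_iff_left₀ (norm_nonneg _) (by positivity) two_ne_zero).1 h3
    linarith
  set M := 1 + Real.sqrt C0 + (1 + R ^ 2) with hM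
  have hsC : 0 ≤ Real.sqrt C0 := Real.sqrt_nonneg _
  have hdd := det_diff (fun j => Λ (bq j)) w0 M (ε * (1 + R ^ 2)) (by positivity) (by positivity)
    (by
      intro j
      refine Fin.cases ?_ (fun k => ?_) j
      · show ‖Λ (bq 0)‖ ≤ M
        rw [v0, hD.norm, hM]; nlinarith [sq_nonneg R]
      · show ‖Λ (bq k.succ)‖ ≤ M
        rw [vs]
        have h1 := hZY k
        have h2 := hYn k
        have h3 : ‖Z (Pi.single k 1)‖ ≤ ‖Y ξ (Pi.single k 1)‖ +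
          ‖Z (Pi.single k 1) - Y ξ (Pi.single k 1)‖ := by
          have := norm_add_le (Y ξ (Pi.single k 1)) (Z (Pi.single k 1) - Y ξ (Pi.single k 1))
          rwa [add_sub_cancel] at this
        have h4 : ε * (1 + R ^ 2) ≤ 1 * (1 + R ^ 2) := by gcongr
        rw [hM]; linarith)
    (by
      intro j
      refine Fin.cases ?_ (fun k => ?_) j
      · rw [w00, hD.norm, hM]; nlinarith [sq_nonneg R]
      · rw [w0s]
        have h2 := hYn k
        rw [hM]; nlinarith [sq_nonneg R])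
    (by
      intro j
      refine Fin.cases ?_ (fun k => ?_) j
      · show ‖Λ (bq 0) - w0 0‖ ≤ _
        rw [v0, w00, sub_self, norm_zero]; positivity
      · show ‖Λ (bq k.succ) - w0 k.succ‖ ≤ _
        rw [vs, w0s]; exact hZY k)
  -- the Gram determinant
  have hgX : g (X ξ) = g x := by
    rw [hX]; exact hg.smooth.1 _ (by positivity) x
  have hgram : (Matrix.of fun i j => ⟪w0 i, w0 j⟫).det = (gmat g x).det := by
    rw [Matrix.det_succ_row_zero, Fin.sum_univ_succ]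
    have hz : ∀ k : Fin 3, (Matrix.of fun i j => ⟪w0 i, w0 j⟫) 0 k.succ = 0 := by
      intro k
      rw [Matrix.of_apply, w00, w0s]
      exact hD.orth ξ _
    have hs : ∑ k : Fin 3, (-1 : ℝ) ^ ((k.succ : Fin 4) : ℕ) * (Matrix.of fun i j => ⟪w0 i, w0 j⟫) 0 k.succ *
        ((Matrix.of fun i j => ⟪w0 i, w0 j⟫).submatrix Fin.succ (k.succ).succAbove).det = 0 := by
      apply Finset.sum_eq_zero
      intro k _
      rw [hz k]; ring
    rw [hs, add_zero]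
    have h00 : (Matrix.of fun i j => ⟪w0 i, w0 j⟫) 0 0 = (1 : ℝ) := by
      rw [Matrix.of_apply, w00, real_inner_self_eq_norm_sq, hD.norm]; norm_num
    rw [h00]
    have hsub : (Matrix.of fun i j => ⟪w0 i, w0 j⟫).submatrix Fin.succ (Fin.succAbove 0) = gmat g x := by
      ext i j
      rw [Matrix.submatrix_apply, Matrix.of_apply, Fin.zero_succAbove, w0s, w0s, hD.gram, hgX]
      rfl
    rw [hsub]
    simp
  have hsqrt : Real.sqrt (gmat g x).det = |(Am w0).det| := by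
    rw [← hgram, ← gram, Real.sqrt_sq_eq_abs]
  rw [hdet, hsqrt]
  refine (abs_abs_sub_abs_le_abs_sub _ _).trans (hdd.trans (le_of_eq ?_))
  ring

end Pool.Agent.Helper32.RF
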