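import Pool.Agent.Helper73.RF.GoalsF

/-!
# Project RF, PACKET LP: the time `τ` and the last stage
-/

set_option autoImplicit false

open Finset Pool.Agent.Helper47.RF Pool.Agent.Helper73.RF

namespace Pool.Agent.Helper32.RF

namespace LPx

/-- maximum over the sphere of a continuous family of homogeneous functions -/
theorem exQ {T : ℝ} {s : ℝ → HH → ℝ}
    (hc : ContinuousOn (fun p : ℝ × HH => s p.1 p.2) (Set.Ico 0 T ×ˢ {0}ᶜ))
    (hh : ∀ t ∈ Set.Ico 0 T, Hom0 (s t)) :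
    ∃ Q : ℝ → ℝ, ContinuousOn Q (Set.Ico 0 T) ∧ ∀ t ∈ Set.Ico 0 T,
      (∀ x, x ≠ 0 → s t x ≤ Q t) ∧ ∃ p, p ≠ 0 ∧ s t p = Q t := by
  have hne0 : ∀ x : Metric.sphere (0 : HH) 1, (x : HH) ≠ 0 := by
    intro x h
    have := x.2
    rw [h] at this
    simp at this
  have hKc : IsCompact (Set.univ : Set (Metric.sphere (0 : HH) 1)) := isCompact_univ
  have hf : Continuous (fun p : Set.Ico (0:ℝ) T × Metric.sphere (0 : HH) 1 =>
      s (p.1 : ℝ) (p.2 : HH)) := by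
    rw [← continuousOn_univ]
    refine hc.comp (f := fun p : Set.Ico (0:ℝ) T × Metric.sphere (0 : HH) 1 =>
      ((p.1 : ℝ), (p.2 : HH))) ?_ ?_
    · exact (by fun_prop : Continuous (fun p : Set.Ico (0:ℝ) T × Metric.sphere (0 : HH) 1 =>
        ((p.1 : ℝ), (p.2 : HH)))).continuousOn
    · intro p _
      exact ⟨p.1.2, hne0 p.2⟩
  have hS := hKc.continuous_sSup (f := fun (t : Set.Ico (0:ℝ) T) (x : Metric.sphere (0 : HH) 1) =>
    s (t : ℝ) (x : HH)) hf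
  refine ⟨fun t => sSup ((fun x : Metric.sphere (0 : HH) 1 => s t (x : HH)) '' Set.univ), ?_, ?_⟩
  · rw [continuousOn_iff_continuous_domRestrict]
    exact hS
  · intro t ht
    have hft : Continuous (fun x : Metric.sphere (0 : HH) 1 => s t (x : HH)) := by
      exact hf.comp (by fun_prop : Continuous (fun x : Metric.sphere (0 : HH) 1 =>
        ((⟨t, ht⟩ : Set.Ico (0:ℝ) T), x)))
    have hcI : IsCompact ((fun x : Metric.sphere (0 : HH) 1 => s t (x : HH)) '' Set.univ) :=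
      hKc.image hft
    have hne : ((fun x : Metric.sphere (0 : HH) 1 => s t (x : HH)) '' Set.univ).Nonempty := by
      refine ⟨_, ⟨⟨1, by simp⟩, Set.mem_univ _, rfl⟩⟩
    constructor
    · intro x hx
      have hxn : 0 < ‖x‖ := norm_pos_iff.mpr hx
      have h1 : s t (‖x‖⁻¹ • x) = s t x := hh t ht _ _ (by positivity)
      rw [← h1]
      refine le_csSup hcI.bddAbove ⟨⟨‖x‖⁻¹ • x, ?_⟩, Set.mem_univ _, rfl⟩
      rw [mem_sphere_zero_iff_norm, norm_smul, norm_inv, norm_norm, inv_mul_cancel₀ hxn.ne']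
    · obtain ⟨p, _, hp⟩ := hcI.sSup_mem hne
      exact ⟨p, hne0 p, hp⟩

theorem frm {I : Set ℝ} {A θ : ℝ → MF} (h : FFlow I A θ) {t : ℝ} (ht : t ∈ I) :
    Frm (A t) (θ t) :=
  ⟨h.inv t ht, fun a i => (h.flA a i).fam.sm t ht, fun i a => (h.flt i a).fam.sm t ht⟩

theorem sC_eq (hF : FrnStmt) {I : Set ℝ} {A θ : ℝ → MF} (h : FFlow I A θ) {t : ℝ} (ht : t ∈ I)
    {x : HH} (hx : x ≠ 0) :
    sC (A t) (θ t) x = 1 / 2 * ∑ a, ∑ i, (∑ b, RicF (A t) (θ t) x a b * A t x b i) * θ t x i a := by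
  obtain ⟨_, _, _, _, _, hR, _⟩ := hF (A t) (θ t) (frm h ht)
  have hinv := h.inv t ht x
  have h1 : ∀ a, ∑ i, (∑ b, RicF (A t) (θ t) x a b * A t x b i) * θ t x i a
      = RicF (A t) (θ t) x a a := by
    intro a
    have h2 : ∀ b, ∑ i, A t x b i * θ t x i a = if b = a then 1 else 0 := by
      intro b
      have := congrFun (congrFun hinv b) a
      rw [Matrix.mul_apply, Matrix.one_apply] at this
      exact this
    calc ∑ i, (∑ b, RicF (A t) (θ t) x a b * A t x b i) * θ t x i a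
        = ∑ b, RicF (A t) (θ t) x a b * ∑ i, A t x b i * θ t x i a := by
          simp only [Finset.sum_mul, Finset.mul_sum]
          rw [Finset.sum_comm]
          exact Finset.sum_congr rfl fun b _ => Finset.sum_congr rfl fun i _ => by ring
      _ = RicF (A t) (θ t) x a a := by
          simp only [h2]
          simp
  simp only [h1]
  simp only [hR x hx]
  simp only [if_true]
  rw [Finset.sum_sub_distrib]
  have h3 : ∑ a, Nc (A t) (θ t) x a a = sC (A t) (θ t) x := rfl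
  rw [h3]
  simp
  ring

theorem sC_cont (hF : FrnStmt) {I : Set ℝ} {A θ : ℝ → MF} (h : FFlow I A θ) :
    ContinuousOn (fun p : ℝ × HH => sC (A p.1) (θ p.1) p.2) (I ×ˢ {0}ᶜ) := by
  have h1 : ∀ a i, ContinuousOn (fun p : ℝ × HH =>
      ∑ b, RicF (A p.1) (θ p.1) p.2 a b * A p.1 p.2 b i) (I ×ˢ {0}ᶜ) := fun a i =>
    (h.flA a i).fam'.cont []
  have h2 : ∀ i a, ContinuousOn (fun p : ℝ × HH => θ p.1 p.2 i a) (I ×ˢ {0}ᶜ) := fun i a =>
    (h.flt i a).fam.cont []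
  have h3 : ContinuousOn (fun p : ℝ × HH => 1 / 2 * ∑ a, ∑ i,
      (∑ b, RicF (A p.1) (θ p.1) p.2 a b * A p.1 p.2 b i) * θ p.1 p.2 i a) (I ×ˢ {0}ᶜ) := by
    refine continuousOn_const.mul ?_
    refine continuousOn_finsetSum _ fun a _ => ?_
    refine continuousOn_finsetSum _ fun i _ => ?_
    exact (h1 a i).mul (h2 i a)
  refine h3.congr ?_
  intro p hp
  exact sC_eq hF h hp.1 hp.2

theorem sC_hom (hF : FrnStmt) {A θ : MF} (h : Frm A θ) : Hom0 (sC A θ) := by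
  obtain ⟨_, _, hN, _⟩ := hF A θ h
  intro r x hr
  unfold sC
  exact Finset.sum_congr rfl fun i _ => (hN i i).hom r x hr

theorem kappa_le {κ : ℝ} {A θ : MF} {x : HH} (hp : PinC κ A θ x) (hs : 0 < sC A θ x) :
    κ ≤ 1 / 3 := by
  have h1 : ∀ k : Fin 3, κ * sC A θ x ≤ Nc A θ x k k := by
    intro k
    have := hp (fun i => if i = k then 1 else 0) (by simp)
    simpa using this
  have h2 : ∑ _k : Fin 3, κ * sC A θ x ≤ ∑ k, Nc A θ x k k := Finset.sum_le_sum fun k _ => h1 k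
  have h3 : ∑ k, Nc A θ x k k = sC A θ x := rfl
  rw [h3] at h2
  simp at h2
  by_contra hc
  push Not at hc
  nlinarith

/-- first time at which a continuous function reaches a level -/
theorem first_time {T L t2 : ℝ} {h : ℝ → ℝ} (hc : ContinuousOn h (Set.Ico 0 T)) (h0 : h 0 < L)
    (ht2 : 0 ≤ t2 ∧ t2 < T) (hL : L ≤ h t2) :
    ∃ τ, 0 < τ ∧ τ < T ∧ h τ = L ∧ ∀ t, 0 ≤ t → t ≤ τ → h t ≤ L := by
  have hsub : ∀ t, t < T → Set.Icc 0 t ⊆ Set.Ico 0 T := fun t ht y hy =>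
    ⟨hy.1, lt_of_le_of_lt hy.2 ht⟩
  have hcc : ContinuousOn h (Set.Icc 0 t2) := hc.mono (hsub t2 ht2.2)
  have hK : IsCompact (Set.Icc 0 t2 ∩ h ⁻¹' {L}) :=
    isCompact_Icc.of_isClosed_subset
      (hcc.preimage_isClosed_of_isClosed isClosed_Icc isClosed_singleton) Set.inter_subset_left
  have hivt : ∀ t, 0 ≤ t → t < T → L ≤ h t → ∃ r, 0 ≤ r ∧ r ≤ t ∧ h r = L := by
    intro t ht0 htT hLt
    obtain ⟨r, hr, hrL⟩ := intermediate_value_Icc ht0 (hc.mono (hsub t htT)) ⟨h0.le, hLt⟩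
    exact ⟨r, hr.1, hr.2, hrL⟩
  have hne : (Set.Icc 0 t2 ∩ h ⁻¹' {L}).Nonempty := by
    obtain ⟨r, h1, h2, h3⟩ := hivt t2 ht2.1 ht2.2 hL
    exact ⟨r, ⟨h1, h2⟩, h3⟩
  obtain ⟨τ, hτ, hmin⟩ := hK.exists_isLeast hne
  have hτL : h τ = L := hτ.2
  have hτ0 : 0 < τ := by
    rcases eq_or_lt_of_le hτ.1.1 with h1 | h1
    · rw [← h1] at hτL
      linarith
    · exact h1
  have hτT : τ < T := lt_of_le_of_lt hτ.1.2 ht2.2
  refine ⟨τ, hτ0, hτT, hτL, ?_⟩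
  intro t ht0 htτ
  by_contra hcon
  push Not at hcon
  obtain ⟨r, hr0, hrt, hrL⟩ := hivt t ht0 (lt_of_le_of_lt htτ hτT) hcon.le
  have hmem : r ∈ Set.Icc 0 t2 ∩ h ⁻¹' {L} :=
    ⟨⟨hr0, hrt.trans (htτ.trans hτ.1.2)⟩, hrL⟩
  have h1 : τ ≤ r := hmin hmem
  have h2 : r = t := le_antisymm hrt (htτ.trans h1)
  rw [h2] at hrL
  linarith

/-- elementary facts about the constant `100000^(2/σ)` -/
theorem A1_facts {σ A1 : ℝ} (hσ : 0 < σ) (hσ1 : σ ≤ 1) (hA : A1 = (100000 : ℝ) ^ (2 / σ)) :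
    10000000000 ≤ A1 ∧ (960 : ℝ) ^ (1 / σ) ≤ A1 ∧
      ∀ y, A1 ≤ y → y ^ (-(σ / 2)) ≤ 1 / 100000 := by
  refine ⟨?_, ?_, ?_⟩
  · have h1 : (2 : ℝ) ≤ 2 / σ := by
      rw [le_div_iff₀ hσ]; nlinarith
    have h2 : (100000 : ℝ) ^ (2 : ℝ) ≤ (100000 : ℝ) ^ (2 / σ) :=
      Real.rpow_le_rpow_of_exponent_le (by norm_num) h1
    rw [hA]
    refine le_trans ?_ h2
    norm_num
  · rw [hA]
    have h3 : (960 : ℝ) ^ (1 / σ) ≤ (100000 : ℝ) ^ (1 / σ) :=
      Real.rpow_le_rpow (by norm_num) (by norm_num) (by positivity)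
    refine h3.trans (Real.rpow_le_rpow_of_exponent_le (by norm_num) ?_)
    gcongr
    norm_num
  · intro y hy
    have hA0 : 0 < A1 := by rw [hA]; positivity
    have h4 : y ^ (-(σ / 2)) ≤ A1 ^ (-(σ / 2)) :=
      Real.rpow_le_rpow_of_nonpos hA0 hy (by linarith)
    refine h4.trans ?_
    rw [hA, ← Real.rpow_mul (by norm_num)]
    have h5 : 2 / σ * -(σ / 2) = -1 := by field_simp
    rw [h5, Real.rpow_neg_one]
    norm_num

/-- the numerical part of the last stage at one time, `u = T - t`, `b = y^(-σ/2)`, `β = z^(σ/2)` -/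
theorem num1 {u b β Q : ℝ} (hu : 0 < u) (hb : 0 ≤ b) (hb1 : b ≤ 1 / 100000) (hbβ : b ≤ β)
    (hQ : 0 < Q) (h2 : (1 - 682 * b) * Q ≤ 3 / (4 * u)) :
    Q ≤ 3 / (4 * u) + 1100 * β / u ∧ b * Q ≤ β / u := by
  have h3 : (1 - 682 * b) * (Q * u) ≤ 3 / 4 := by
    have := mul_le_mul_of_nonneg_right h2 hu.le
    have h4 : 3 / (4 * u) * u = 3 / 4 := by field_simp
    rw [h4] at this
    linarith
  set w : ℝ := Q * u with hw
  have hw0 : 0 < w := mul_pos hQ hu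
  have hQw : Q = w / u := by rw [hw]; field_simp
  have h5 : w ≤ 1 := by nlinarith
  have h6 : w ≤ 3 / 4 + 682 * b := by nlinarith
  have hβ : 0 ≤ β := hb.trans hbβ
  constructor
  · rw [hQw]
    have h7 : 3 / (4 * u) + 1100 * β / u = (3 / 4 + 1100 * β) / u := by field_simp
    rw [h7]
    gcongr
    linarith
  · rw [hQw]
    have h8 : b * (w / u) = b * w / u := by ring
    rw [h8]
    gcongr
    nlinarith

theorem num2 {u b β Q s : ℝ} (hu : 0 < u) (hb : 0 ≤ b) (hb1 : b ≤ 1 / 100000) (hbβ : b ≤ β)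
    (hβ1 : β ≤ 1) (hQ : 0 < Q) (h3 : 1 / ((4 / 3 + 2 * β ^ 2) * u) ≤ Q)
    (hs : (1 - 682 * b) * Q ≤ s) : 3 / (4 * u) - 1100 * β / u ≤ s := by
  have hβ : 0 ≤ β := hb.trans hbβ
  refine le_trans ?_ hs
  have h4 : 1 ≤ (4 / 3 + 2 * β ^ 2) * (Q * u) := by
    rw [div_le_iff₀ (by positivity)] at h3
    linarith
  set w : ℝ := Q * u with hw
  have hw0 : 0 < w := mul_pos hQ hu
  have hQw : Q = w / u := by rw [hw]; field_simp
  have h5 : (3 / 4 - 9 / 8 * β ^ 2) ≤ w := by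
    by_contra hc
    push Not at hc
    have h6 : (4 / 3 + 2 * β ^ 2) * w < (4 / 3 + 2 * β ^ 2) * (3 / 4 - 9 / 8 * β ^ 2) := by
      apply mul_lt_mul_of_pos_left hc
      positivity
    nlinarith [sq_nonneg (β ^ 2), sq_nonneg β]
  have h7 : 3 / (4 * u) - 1100 * β / u = (3 / 4 - 1100 * β) / u := by field_simp
  rw [hQw, h7, mul_div_assoc']
  gcongr
  have h8 : β ^ 2 ≤ β := by nlinarith
  have h9 : 0 ≤ 1 - 682 * b := by linarith
  have h10 : (1 - 682 * b) * (3 / 4 - 9 / 8 * β ^ 2) ≤ (1 - 682 * b) * w :=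
    mul_le_mul_of_nonneg_left h5 h9
  nlinarith [mul_nonneg hb (sq_nonneg β)]

end LPx

open LPx

theorem lp (hF : FrnStmt) : LpStmt := by
  intro hone T κ s0 A θ hT hκ hs0 hfl hG hub
  -- the constant
  have hp1 := hG.p1
  have hx1 : (1 : HH) ≠ 0 := one_ne_zero
  have hsp : ∀ t, 0 ≤ t → t < T → ∀ x, x ≠ 0 → 0 < sC (A t) (θ t) x := fun t h1 h2 x hx =>
    lt_of_lt_of_le hs0 (hp1 t h1 h2 x hx).1
  have hκ3 : κ ≤ 1 / 3 := kappa_le (hp1 0 le_rfl hT 1 hx1).2 (hsp 0 le_rfl hT 1 hx1)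
  obtain ⟨σ, hσ⟩ : ∃ σ, σ = 3 * κ ^ 2 := ⟨_, rfl⟩
  have hσ0 : 0 < σ := by rw [hσ]; positivity
  have hσ1 : σ ≤ 1 := by rw [hσ]; nlinarith
  obtain ⟨A1, hA1⟩ : ∃ A1, A1 = (100000 : ℝ) ^ (2 / σ) := ⟨_, rfl⟩
  obtain ⟨hA1a, hA1b, hA1c⟩ := A1_facts hσ0 hσ1 hA1
  have hA1p : 0 < A1 := by linarith
  -- the maximum
  obtain ⟨Q, hQc, hQ⟩ := exQ (T := T) (s := fun t => sC (A t) (θ t)) (sC_cont hF hfl)
    (fun t ht => sC_hom hF (frm hfl ht))
  have hQ1 : ∀ t, 0 ≤ t → t < T → ∀ x, x ≠ 0 → sC (A t) (θ t) x ≤ Q t := fun t h1 h2 =>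
    (hQ t ⟨h1, h2⟩).1
  have hQ2 : ∀ t, 0 ≤ t → t < T → ∃ p, p ≠ 0 ∧ sC (A t) (θ t) p = Q t := fun t h1 h2 =>
    (hQ t ⟨h1, h2⟩).2
  have hQp : ∀ t, 0 ≤ t → t < T → 0 < Q t := fun t h1 h2 =>
    lt_of_lt_of_le (hsp t h1 h2 1 hx1) (hQ1 t h1 h2 1 hx1)
  have hs3 : ∀ t e, 0 < t → t < T → 0 ≤ e →
      (∀ r, t ≤ r → r < T → ∀ x, x ≠ 0 → qC (A r) (θ r) x ≤ e * sC (A r) (θ r) x ^ 2) →
      1 / ((4 / 3 + e) * (T - t)) ≤ Q t := fun t e h1 h2 h3 h4 =>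
    hG.s3 t (Q t) e h1 h2 (hQp t h1.le h2) h3 (hQ1 t h1.le h2) h4 hub
  have hs3' : ∀ t, 0 < t → t < T → 1 / (2 * (T - t)) ≤ Q t := by
    intro t h1 h2
    have := hs3 t (2 / 3) h1 h2 (by norm_num) (fun r h3 h4 x hx =>
      (hG.p2 r (lt_of_lt_of_le h1 h3) h4 x hx).2)
    have h5 : (4 / 3 + 2 / 3 : ℝ) = 2 := by norm_num
    rwa [h5] at this
  -- the time τ
  obtain ⟨τ, hτ0, hτT, hτL, hτb⟩ : ∃ τ, 0 < τ ∧ τ < T ∧ τ * Q τ = 2 * A1 ∧
      ∀ t, 0 ≤ t → t ≤ τ → t * Q t ≤ 2 * A1 := by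
    have ht2 : (4 * A1 * T / (1 + 4 * A1)) < T := by
      rw [div_lt_iff₀ (by positivity)]
      nlinarith
    have ht2' : 0 < 4 * A1 * T / (1 + 4 * A1) := by positivity
    refine first_time (T := T) (L := 2 * A1) (t2 := 4 * A1 * T / (1 + 4 * A1))
      (h := fun t => t * Q t) (continuousOn_id.mul hQc) (by simpa using hA1p) ⟨ht2'.le, ht2⟩ ?_
    have h1 := hs3' _ ht2' ht2
    have h2 : T - 4 * A1 * T / (1 + 4 * A1) = T / (1 + 4 * A1) := by field_simp; ring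
    rw [h2] at h1
    have h3 := mul_le_mul_of_nonneg_left h1 ht2'.le
    refine le_trans (le_of_eq ?_) h3
    field_simp
    norm_num
  have hzero : ∀ t, τ ≤ t → 0 < t := fun t h => lt_of_lt_of_le hτ0 h
  have hQτ : Q τ = 2 * A1 / τ := by rw [← hτL]; field_simp
  -- ONE at a time with `A1 ≤ t Q(t)`
  have hone' : ∀ t, 0 < t → t < T → A1 ≤ t * Q t →
      (∀ x, x ≠ 0 → (1 - 682 * (t * Q t) ^ (-(σ / 2))) * Q t ≤ sC (A t) (θ t) x
      ∧ ∀ i j, |Nc (A t) (θ t) x i j - (if i = j then sC (A t) (θ t) x / 3 else 0)|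
          ≤ (t * Q t) ^ (-(σ / 2)) * Q t)
    ∧ ∀ x y : HH, ‖x‖ = 1 → ‖y‖ = 1 → gdist (gOf (θ t)) x y ≤ 11 / Real.sqrt (Q t) := by
    intro t h1 h2 h3
    have := hone T κ s0 A θ hT hκ hs0 hfl hG t (Q t) h1 h2 (hQ1 t h1.le h2) (hQ2 t h1.le h2)
      (by rw [← hσ, ← hA1]; exact h3)
    rw [← hσ] at this
    exact this
  have hyτ : A1 ≤ τ * Q τ := by rw [hτL]; linarith
  obtain ⟨hτ1, hτ2⟩ := hone' τ hτ0 hτT hyτ
  have hbτ := hA1c _ hyτ
  have hmτ : ∀ x, x ≠ 0 → 99 / 100 * Q τ ≤ sC (A τ) (θ τ) x := by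
    intro x hx
    refine le_trans ?_ (hτ1 x hx).1
    have := hQp τ hτ0.le hτT
    nlinarith
  obtain ⟨hs2a, hs2b⟩ := hG.s2 τ (99 / 100 * Q τ) hτ0 hτT
    (by have := hQp τ hτ0.le hτT; positivity) hmτ
  have hlen2 : 2 * (T - τ) ≤ τ := by
    have h1 : 0 < T - τ := by linarith
    rw [hQτ, le_div_iff₀ (by positivity)] at hs2b
    have h2 : 99 / 100 * (2 * A1 / τ) * (4 * (T - τ)) = 99 / 100 * 8 * A1 * (T - τ) / τ := by ring
    rw [h2, div_le_iff₀ hτ0] at hs2b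
    nlinarith
  have hlen1 : τ / (4 * A1) ≤ T - τ := by
    have h1 := hs3' τ hτ0 hτT
    have h0 : 0 < T - τ := by linarith
    rw [hQτ, div_le_div_iff₀ (by positivity) hτ0] at h1
    rw [div_le_iff₀ (by positivity)]
    nlinarith
  -- after τ
  have hyt : ∀ t, τ ≤ t → t < T → A1 ≤ t * Q t := by
    intro t h1 h2
    have h3 := hs2a t h1 h2 1 hx1
    have h4 := hQ1 t (hτ0.le.trans h1) h2 1 hx1
    have h5 : 99 / 100 * (2 * A1) ≤ t * Q t := by
      rw [← hτL]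
      have h6 := hQp τ hτ0.le hτT
      calc 99 / 100 * (τ * Q τ) = τ * (99 / 100 * Q τ) := by ring
        _ ≤ t * Q t := by
          apply mul_le_mul h1 (h3.trans h4) (by positivity) (hτ0.le.trans h1)
    linarith
  have hz1 : ∀ t, τ ≤ t → t < T → 0 < 2 * (T - t) / τ ∧ 2 * (T - t) / τ ≤ 1 := by
    intro t h1 h2
    constructor
    · have : 0 < T - t := by linarith
      positivity
    · rw [div_le_one hτ0]
      linarith
  have hbβ : ∀ t, τ ≤ t → t < T →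
      (t * Q t) ^ (-(σ / 2)) ≤ (2 * (T - t) / τ) ^ (σ / 2) := by
    intro t h1 h2
    obtain ⟨hz0, _⟩ := hz1 t h1 h2
    have ht0 : 0 < t := hzero t h1
    have h0 : 0 < T - t := by linarith
    have h3 : (2 * (T - t) / τ)⁻¹ ≤ t * Q t := by
      have h4 := hs3' t ht0 h2
      calc (2 * (T - t) / τ)⁻¹ = τ * (1 / (2 * (T - t))) := by field_simp
        _ ≤ t * Q t := mul_le_mul h1 h4 (by positivity) ht0.le
    calc (t * Q t) ^ (-(σ / 2)) ≤ ((2 * (T - t) / τ)⁻¹) ^ (-(σ / 2)) :=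
          Real.rpow_le_rpow_of_nonpos (by positivity) h3 (by linarith)
      _ = (2 * (T - t) / τ) ^ (σ / 2) := by
          rw [Real.rpow_neg (by positivity), Real.inv_rpow hz0.le, inv_inv]
  have hnn : ∀ t, τ ≤ t → t < T → 0 ≤ (t * Q t) ^ (-(σ / 2)) := fun t h1 h2 =>
    Real.rpow_nonneg (mul_nonneg (hzero t h1).le (hQp t (hzero t h1).le h2).le) _
  refine ⟨τ, ⟨hτ0, hτT⟩, ?_, ?_, ?_, ?_⟩
  · rw [← hσ, ← hA1]
    exact ⟨hlen1, hlen2⟩
  · intro t h1 h2 x hx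
    rw [← hσ, ← hA1]
    have h3 := hQ1 t h1.le (lt_of_le_of_lt h2 hτT) x hx
    exact (mul_le_mul_of_nonneg_left h3 h1.le).trans (hτb t h1.le h2)
  · intro t h1 h2 x hx
    rw [← hσ]
    have ht0 : 0 < t := hzero t h1
    have hu : 0 < T - t := by linarith
    obtain ⟨hon, _⟩ := hone' t ht0 h2 (hyt t h1 h2)
    have hb0 := hnn t h1 h2
    have hb1 := hA1c _ (hyt t h1 h2)
    have hbb := hbβ t h1 h2
    have hQt := hQp t ht0.le h2
    have hβ1 : (2 * (T - t) / τ) ^ (σ / 2) ≤ 1 :=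
      Real.rpow_le_one (hz1 t h1 h2).1.le (hz1 t h1 h2).2 (by positivity)
    have hβ0 : 0 ≤ (2 * (T - t) / τ) ^ (σ / 2) := hb0.trans hbb
    -- upper bound of Q
    have hup : (1 - 682 * (t * Q t) ^ (-(σ / 2))) * Q t ≤ 3 / (4 * (T - t)) := by
      refine (hG.s2 t _ ht0 h2 ?_ (fun x hx => (hon x hx).1)).2
      apply mul_pos _ hQt
      linarith
    obtain ⟨hn1, hn2⟩ := num1 hu hb0 hb1 hbb hQt hup
    -- lower bound of Q
    have hlo : 1 / ((4 / 3 + 2 * ((2 * (T - t) / τ) ^ (σ / 2)) ^ 2) * (T - t)) ≤ Q t := by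
      refine hs3 t _ ht0 h2 (by positivity) ?_
      intro r h3 h4 y hy
      have hr0 : 0 < r := lt_of_lt_of_le ht0 h3
      have h1r : τ ≤ r := h1.trans h3
      have hQr := hQp r hr0.le h4
      have hyr := hyt r h1r h4
      have hp3 := (hG.p3 r (Q r) hr0 h4 (hQ1 r hr0.le h4) (by
        rw [← hσ]; exact hA1b.trans hyr) y hy).2
      rw [← hσ] at hp3
      have hbr := hnn r h1r h4
      have hbr1 := hA1c _ hyr
      have hbrβ : (r * Q r) ^ (-(σ / 2)) ≤ (2 * (T - t) / τ) ^ (σ / 2) := by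
        refine (hbβ r h1r h4).trans ?_
        apply Real.rpow_le_rpow (hz1 r h1r h4).1.le _ (by positivity)
        gcongr
      have hsq : (r * Q r) ^ (-σ) = ((r * Q r) ^ (-(σ / 2))) ^ 2 := by
        rw [← Real.rpow_natCast, ← Real.rpow_mul (mul_nonneg hr0.le hQr.le)]
        congr 1
        push_cast
        ring
      rw [hsq] at hp3
      obtain ⟨honr, _⟩ := hone' r hr0 h4 hyr
      have hsr := (honr y hy).1
      have hsr2 : 99 / 100 * Q r ≤ sC (A r) (θ r) y := by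
        refine le_trans ?_ hsr
        nlinarith
      have h5 : (99 / 100 * Q r) ^ 2 ≤ sC (A r) (θ r) y ^ 2 :=
        pow_le_pow_left₀ (by positivity) hsr2 2
      have h6 : Q r ^ 2 ≤ 2 * sC (A r) (θ r) y ^ 2 := by nlinarith [sq_nonneg (Q r)]
      refine hp3.trans ?_
      calc ((r * Q r) ^ (-(σ / 2))) ^ 2 * Q r ^ 2
          ≤ ((2 * (T - t) / τ) ^ (σ / 2)) ^ 2 * (2 * sC (A r) (θ r) y ^ 2) := by
            apply mul_le_mul _ h6 (by positivity) (by positivity)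
            exact pow_le_pow_left₀ hbr hbrβ 2
        _ = _ := by ring
    have hn3 := num2 (s := sC (A t) (θ t) x) hu hb0 hb1 hbb hβ1 hQt hlo (hon x hx).1
    refine ⟨?_, ?_⟩
    · rw [abs_le]
      constructor
      · linarith
      · have := hQ1 t ht0.le h2 x hx
        linarith
    · intro i j
      exact ((hon x hx).2 i j).trans hn2
  · intro x y hx hy
    refine (hτ2 x y hx hy).trans ?_
    rw [hQτ]
    have h1 : 1 ≤ 2 * A1 := by linarith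
    have h2 : Real.sqrt (1 / τ) ≤ Real.sqrt (2 * A1 / τ) := by
      apply Real.sqrt_le_sqrt
      gcongr
    rw [div_le_iff₀ (Real.sqrt_pos.mpr (by positivity))]
    have h3 : Real.sqrt τ * Real.sqrt (1 / τ) = 1 := by
      rw [← Real.sqrt_mul hτ0.le]
      have : τ * (1 / τ) = 1 := by field_simp
      rw [this, Real.sqrt_one]
    have h4 : Real.sqrt τ * Real.sqrt (1 / τ) ≤ Real.sqrt τ * Real.sqrt (2 * A1 / τ) :=
      mul_le_mul_of_nonneg_left h2 (Real.sqrt_nonneg _)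
    nlinarith

end Pool.Agent.Helper32.RF
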