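import Pool.Agent.Helper64.RF.GoalsD

/-! MP_c98eff_gt, project RF, packet MYB: the Myers estimate for the energy infimum. -/

open Quaternion MeasureTheory

namespace Pool.Agent.Helper32.RF

open Pool.Agent.Helper64.RF

variable {F : Type*} [NormedAddCommGroup F] [NormedSpace ℝ F]

lemma cont_SS {f : ℍ[ℝ] → F} (hf : SS f) {c : ℝ → ℍ[ℝ]} (hc : Continuous c)
    (h0 : ∀ t, c t ≠ 0) : Continuous (fun t => f (c t)) := by
  rw [continuous_iff_continuousAt]
  intro t
  exact (hf.continuousAt (h0 t)).comp hc.continuousAt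

lemma cont_Ed {f : ℍ[ℝ] → F} (hf : SS f) {c : ℝ → ℍ[ℝ]} (hc : Continuous c)
    (h0 : ∀ t, c t ≠ 0) {a : ℝ → W} (ha : Continuous a) :
    Continuous (fun t => Ed (a t) f (c t)) := by
  rw [continuous_iff_continuousAt]
  intro t
  have h1 : ContDiffAt ℝ (⊤ : ℕ∞) (fderiv ℝ f) (c t) := (hf.2 _ (h0 t)).fderiv_right (by simp)
  have h2 : ContinuousAt (fun s => fderiv ℝ f (c s)) t := h1.continuousAt.comp hc.continuousAt
  have h3 : Continuous (fun s => c s * iot (a s)) := hc.mul (iotL.continuous.comp ha)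
  exact h2.clm_apply h3.continuousAt

lemma cont_vel {c : ℝ → ℍ[ℝ]} (hc : C1 c) : Continuous (fun t => vel c t) := by
  have h1 : Continuous (fun t => (c t)⁻¹ * deriv c t) :=
    (hc.1.continuous.inv₀ hc.2).mul (hc.1.continuous_deriv le_rfl)
  exact imL.continuous.comp h1

lemma cont_br {a b : ℝ → W} (ha : Continuous a) (hb : Continuous b) :
    Continuous (fun t => br (a t) (b t)) := by
  have h1 : Continuous (fun t => iot (a t) * iot (b t) - iot (b t) * iot (a t)) :=
    ((iotL.continuous.comp ha).mul (iotL.continuous.comp hb)).sub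
      ((iotL.continuous.comp hb).mul (iotL.continuous.comp ha))
  exact imL.continuous.comp h1

lemma cont_Rm {G : ℍ[ℝ] → W →L[ℝ] W →L[ℝ] W} (hG : SS G) {c : ℝ → ℍ[ℝ]} (hc : Continuous c)
    (h0 : ∀ t, c t ≠ 0) {a v z : ℝ → W} (ha : Continuous a) (hv : Continuous v)
    (hz : Continuous z) : Continuous (fun t => Rm G (c t) (a t) (v t) (z t)) := by
  have hGc := cont_SS hG hc h0
  unfold Rm
  exact ((((((cont_Ed hG hc h0 ha).clm_apply hv).clm_apply hz).sub
    (((cont_Ed hG hc h0 hv).clm_apply ha).clm_apply hz)).add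
    ((hGc.clm_apply ha).clm_apply ((hGc.clm_apply hv).clm_apply hz))).sub
    ((hGc.clm_apply hv).clm_apply ((hGc.clm_apply ha).clm_apply hz))).sub
    ((hGc.clm_apply (cont_br ha hv)).clm_apply hz)

lemma Rm_smul (G : ℍ[ℝ] → W →L[ℝ] W →L[ℝ] W) (x : ℍ[ℝ]) (s : ℝ) (a v : W) :
    Rm G x (s • a) v (s • a) = (s ^ 2) • Rm G x a v a := by
  unfold Rm
  simp only [Ed_smul, br_smul_left, map_smul, _root_.smul_apply]
  module

lemma En_nonneg {g : ℍ[ℝ] → W →L[ℝ] W →L[ℝ] ℝ} (hg : Met g) {c : ℝ → ℍ[ℝ]} (hc : C1 c) :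
    0 ≤ En g c := by
  obtain ⟨cg, hcg, Cg, hCg, hb⟩ := hg.bounds
  unfold En
  apply intervalIntegral.integral_nonneg zero_le_one
  intro t _
  exact (mul_nonneg hcg.le (sq_nonneg' _)).trans (hb (c t) (hc.2 t) (vel c t)).1

lemma bb_zero (G : ℍ[ℝ] → W →L[ℝ] W →L[ℝ] W) (x : ℍ[ℝ]) (u : ℝ) : bb G x 0 u = 1 := by
  simp [bb]

lemma int_cos_sq : ∫ t in (0:ℝ)..1, Real.cos (Real.pi * t) ^ 2 = 1 / 2 := by
  have hpi : Real.pi ≠ 0 := Real.pi_ne_zero
  have hd : ∀ t ∈ Set.uIcc (0:ℝ) 1,
      HasDerivAt (fun t : ℝ => t / 2 + Real.sin (2 * Real.pi * t) / (4 * Real.pi))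
        (Real.cos (Real.pi * t) ^ 2) t := by
    intro t _
    have h1 : HasDerivAt (fun t : ℝ => 2 * Real.pi * t) (2 * Real.pi) t := by
      simpa using (hasDerivAt_id t).const_mul (2 * Real.pi)
    have h2 := (h1.sin).div_const (4 * Real.pi)
    have h3 := ((hasDerivAt_id t).div_const 2).add h2
    have e : 1 / 2 + Real.cos (2 * Real.pi * t) * (2 * Real.pi) / (4 * Real.pi) =
        Real.cos (Real.pi * t) ^ 2 := by
      have h4 : Real.cos (2 * Real.pi * t) = 2 * Real.cos (Real.pi * t) ^ 2 - 1 := by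
        rw [show 2 * Real.pi * t = 2 * (Real.pi * t) by ring, Real.cos_two_mul]
      rw [h4]; field_simp; ring
    rw [← e]
    exact h3
  rw [intervalIntegral.integral_eq_sub_of_hasDerivAt hd
    ((Real.continuous_cos.comp (continuous_const.mul continuous_id)).pow 2 |>.intervalIntegrable _ _)]
  have : Real.sin (2 * Real.pi * 1) = 0 := by rw [mul_one]; exact Real.sin_two_pi
  rw [this]
  simp

theorem myb (crv : CRV) (rep : REP) (sv : SV) (par : PAR) : MYB := by
  intro g G hg hG lam r2 p y hlam hp hy hRic hlt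
  by_contra hcon
  push Not at hcon
  set e := eInf g p y with he
  have hδ : 0 < lam * e - 3 * Real.pi ^ 2 := by
    rw [div_lt_iff₀ hlam] at hcon; linarith
  set δ := lam * e - 3 * Real.pi ^ 2 with hδdef
  -- the infimum
  have hbdd : BddBelow {e : ℝ | ∃ c, C1 c ∧ c 0 = p ∧ c 1 = y ∧ En g c = e} := by
    refine ⟨0, ?_⟩
    rintro x ⟨c, hc, -, -, rfl⟩
    exact En_nonneg hg hc
  have hne : {e : ℝ | ∃ c, C1 c ∧ c 0 = p ∧ c 1 = y ∧ En g c = e}.Nonempty := by
    obtain ⟨c, hc, h0, h1⟩ := crv.1 p y hp hy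
    exact ⟨_, c, hc, h0, h1, rfl⟩
  have hle : ∀ c, C1 c → c 0 = p → c 1 = y → e ≤ En g c := fun c hc h0 h1 =>
    csInf_le hbdd ⟨c, hc, h0, h1, rfl⟩
  have he0 : 0 ≤ e := by
    refine le_csInf hne ?_
    rintro x ⟨c, hc, -, -, rfl⟩
    exact En_nonneg hg hc
  -- constants
  obtain ⟨cg, hcg, Cg, hCg, hb⟩ := hg.bounds
  obtain ⟨CG, hCG0, hCG⟩ := hG.smooth.bdd
  set B := Real.sqrt (1 / cg) with hB
  have hB0 : 0 ≤ B := Real.sqrt_nonneg _
  have hOB : ∀ x, x ≠ 0 → ∀ b : Fin 3 → W, Orth g x b → ∀ i, ‖b i‖ ≤ B := by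
    intro x hx b hbO i
    have h1 := (hb x hx (b i)).1
    have h2 := hbO i i
    rw [if_pos rfl] at h2
    rw [h2] at h1
    have h3 := norm_sq_le_sq (b i)
    rw [hB]
    apply Real.le_sqrt_of_sq_le
    rw [le_div_iff₀ hcg]
    nlinarith
  obtain ⟨C, hC0, hC⟩ := sv g G hg hG B
  set K := (1 + 2 * (CG * B) ^ 2) / cg * r2 + 2 * (Real.pi * B) ^ 2 with hK
  have hr20 : 0 < r2 := lt_of_le_of_lt he0 hlt
  have hK0 : 0 ≤ K := by positivity
  set M := 6 + lam * (2 + r2 / 2) + 3 * (C * K) with hM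
  have hM0 : 0 < M := by positivity
  set u := min 1 (min ((r2 - e) / 2) (δ / (2 * M))) with hu
  have hu0 : 0 < u := by
    rw [hu]; refine lt_min one_pos (lt_min (by linarith) (by positivity))
  have hu1 : u ≤ 1 := min_le_left _ _
  have hu2 : u ≤ (r2 - e) / 2 := (min_le_right _ _).trans (min_le_left _ _)
  have hu3 : u ≤ δ / (2 * M) := (min_le_right _ _).trans (min_le_right _ _)
  have hu3' : u * M ≤ δ / 2 := by
    rw [le_div_iff₀ (by positivity)] at hu3
    linarith
  set θ := u ^ 3 with hθ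
  have hθ0 : 0 < θ := by positivity
  have hθu : θ ≤ u := by
    rw [hθ]; nlinarith [mul_pos hu0 hu0, mul_nonneg hu0.le (sub_nonneg.2 hu1), pow_pos hu0 3,
      mul_nonneg (mul_pos hu0 hu0).le (sub_nonneg.2 hu1)]
  have hsθ : Real.sqrt θ ≤ u := by
    rw [Real.sqrt_le_left hu0.le, hθ]
    nlinarith [mul_nonneg (mul_pos hu0 hu0).le (sub_nonneg.2 hu1)]
  -- the almost minimizer
  obtain ⟨e1, ⟨c, hc, hc0, hc1, rfl⟩, hce⟩ := exists_lt_of_csInf_lt hne
    (show sInf {e : ℝ | ∃ c, C1 c ∧ c 0 = p ∧ c 1 = y ∧ En g c = e} < e + θ by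
      show e < e + θ
      linarith)
  have hcr : En g c ≤ r2 := by linarith
  have hec : e ≤ En g c := hle c hc hc0 hc1
  have hrep := rep g hg c hc θ hθ0 (hθu.trans hu1) (by
    intro c' hc' h0 h1
    have := hle c' hc' (h0.trans hc0) (h1.trans hc1)
    linarith)
  obtain ⟨f, hf1, hfd, hfO⟩ := par g G hg hG c hc
  have cc : Continuous c := hc.1.continuous
  have cv : Continuous (fun t => vel c t) := cont_vel hc
  have cf : ∀ i, Continuous (f i) := fun i => (hf1 i).continuous
  have cg' : Continuous (fun t => g (c t)) := cont_SS hg.smooth cc hc.2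
  have cgv : Continuous (fun t => g (c t) (vel c t) (vel c t)) := (cg'.clm_apply cv).clm_apply cv
  have ccos : Continuous (fun t : ℝ => Real.cos (Real.pi * t)) :=
    Real.continuous_cos.comp (continuous_const.mul continuous_id)
  have csin : Continuous (fun t : ℝ => Real.sin (Real.pi * t)) :=
    Real.continuous_sin.comp (continuous_const.mul continuous_id)
  set ρ : Fin 3 → ℝ → ℝ := fun i t => g (c t) (Rm G (c t) (f i t) (vel c t) (f i t)) (vel c t) with hρ
  have cρ : ∀ i, Continuous (ρ i) := fun i =>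
    (cg'.clm_apply (cont_Rm hG.smooth cc hc.2 (cf i) cv (cf i))).clm_apply cv
  have hfB : ∀ i t, ‖f i t‖ ≤ B := fun i t => hOB (c t) (hc.2 t) (fun i => f i t) (hfO t) i
  -- the fields
  set V : Fin 3 → ℝ → W := fun i t => Real.sin (Real.pi * t) • f i t with hV
  have hV1 : ∀ i, ContDiff ℝ 1 (V i) := by
    intro i
    have h1 : ContDiff ℝ 1 (fun t : ℝ => Real.sin (Real.pi * t)) :=
      Real.contDiff_sin.comp (contDiff_const.mul contDiff_id)
    exact h1.smul (hf1 i)
  have hsd : ∀ t : ℝ, HasDerivAt (fun t : ℝ => Real.sin (Real.pi * t))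
      (Real.pi * Real.cos (Real.pi * t)) t := by
    intro t
    have h1 : HasDerivAt (fun t : ℝ => Real.pi * t) Real.pi t := by
      simpa using (hasDerivAt_id t).const_mul Real.pi
    have := h1.sin
    rw [mul_comm] at this
    exact this
  have hVd : ∀ i t, deriv (V i) t = (Real.pi * Real.cos (Real.pi * t)) • f i t -
      Real.sin (Real.pi * t) • (G (c t) (vel c t) (f i t)) := by
    intro i t
    have h1 : HasDerivAt (f i) (deriv (f i) t) t := ((hf1 i).differentiable (by simp) t).hasDerivAt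
    have h2 := (hsd t).smul h1
    have h3 : deriv (V i) t = Real.sin (Real.pi * t) • deriv (f i) t +
      (Real.pi * Real.cos (Real.pi * t)) • f i t := h2.deriv
    rw [h3, hfd i t, smul_neg]
    abel
  have hDV : ∀ i t, DV G c (V i) t = (Real.pi * Real.cos (Real.pi * t)) • f i t := by
    intro i t
    show deriv (V i) t + G (c t) (vel c t) (Real.sin (Real.pi * t) • f i t) = _
    rw [hVd i t, map_smul]
    abel
  have hVB : ∀ i, ∀ t, ‖V i t‖ ≤ B := by
    intro i t
    show ‖Real.sin (Real.pi * t) • f i t‖ ≤ B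
    rw [norm_smul, Real.norm_eq_abs]
    calc |Real.sin (Real.pi * t)| * ‖f i t‖ ≤ 1 * B := by
          gcongr
          · exact Real.abs_sin_le_one _
          · exact hfB i t
      _ = B := one_mul _
  -- the integrands
  have hint : ∀ i t, g (c t) (DV G c (V i) t) (DV G c (V i) t) +
      g (c t) (Rm G (c t) (V i t) (vel c t) (V i t)) (vel c t) =
      Real.pi ^ 2 * Real.cos (Real.pi * t) ^ 2 + Real.sin (Real.pi * t) ^ 2 * ρ i t := by
    intro i t
    rw [hDV i t]
    have h1 : V i t = Real.sin (Real.pi * t) • f i t := rfl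
    rw [h1, Rm_smul]
    have h2 := hfO t i i
    rw [if_pos rfl] at h2
    simp only [map_smul, _root_.smul_apply, smul_eq_mul]
    rw [h2]
    ring
  set J : Fin 3 → ℝ := fun i => ∫ t in (0:ℝ)..1,
    (Real.pi ^ 2 * Real.cos (Real.pi * t) ^ 2 + Real.sin (Real.pi * t) ^ 2 * ρ i t) with hJ
  have hnormv : ∀ t, ‖vel c t‖ ^ 2 ≤ g (c t) (vel c t) (vel c t) / cg := by
    intro t
    rw [le_div_iff₀ hcg]
    have h1 := (hb (c t) (hc.2 t) (vel c t)).1
    have h2 := norm_sq_le_sq (vel c t)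
    nlinarith
  have hVdn : ∀ i t, ‖deriv (V i) t‖ ^ 2 ≤ 2 * (Real.pi * B) ^ 2 + 2 * (CG * B) ^ 2 * ‖vel c t‖ ^ 2 := by
    intro i t
    have h1 : ‖deriv (V i) t‖ ≤ Real.pi * B + CG * B * ‖vel c t‖ := by
      rw [hVd i t]
      refine (norm_sub_le _ _).trans ?_
      rw [norm_smul, norm_smul, Real.norm_eq_abs, Real.norm_eq_abs, abs_mul, abs_of_pos Real.pi_pos]
      have h2 : ‖G (c t) (vel c t) (f i t)‖ ≤ CG * ‖vel c t‖ * B := by
        refine ((G (c t)).le_opNorm₂ _ _).trans ?_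
        gcongr
        · exact hCG _ (hc.2 t)
        · exact hfB i t
      have h3 : |Real.cos (Real.pi * t)| ≤ 1 := Real.abs_cos_le_one _
      have h4 : |Real.sin (Real.pi * t)| ≤ 1 := Real.abs_sin_le_one _
      have h5 : Real.pi * |Real.cos (Real.pi * t)| * ‖f i t‖ ≤ Real.pi * 1 * B := by
        gcongr
        · exact hfB i t
      have h6 : |Real.sin (Real.pi * t)| * ‖G (c t) (vel c t) (f i t)‖ ≤
          1 * (CG * ‖vel c t‖ * B) := by gcongr
      linarith
    calc ‖deriv (V i) t‖ ^ 2 ≤ (Real.pi * B + CG * B * ‖vel c t‖) ^ 2 := by gcongr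
      _ ≤ _ := by nlinarith [sq_nonneg (Real.pi * B - CG * B * ‖vel c t‖)]
  have hJ2 : ∀ i, ∫ t in (0:ℝ)..1, (‖vel c t‖ ^ 2 + ‖deriv (V i) t‖ ^ 2) ≤ K := by
    intro i
    have h1 : ∫ t in (0:ℝ)..1, (‖vel c t‖ ^ 2 + ‖deriv (V i) t‖ ^ 2) ≤
        ∫ t in (0:ℝ)..1, ((1 + 2 * (CG * B) ^ 2) / cg * g (c t) (vel c t) (vel c t) +
          2 * (Real.pi * B) ^ 2) := by
      apply intervalIntegral.integral_mono_on zero_le_one
      · exact ((cv.norm.pow 2).add (((hV1 i).continuous_deriv le_rfl).norm.pow 2)).intervalIntegrable _ _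
      · exact ((continuous_const.mul cgv).add continuous_const).intervalIntegrable _ _
      · intro t _
        have h2 := hVdn i t
        have h3 := hnormv t
        have h4 : (1 + 2 * (CG * B) ^ 2) * ‖vel c t‖ ^ 2 ≤
            (1 + 2 * (CG * B) ^ 2) * (g (c t) (vel c t) (vel c t) / cg) := by gcongr
        have h5 : (1 + 2 * (CG * B) ^ 2) / cg * g (c t) (vel c t) (vel c t) =
            (1 + 2 * (CG * B) ^ 2) * (g (c t) (vel c t) (vel c t) / cg) := by ring
        rw [h5]
        linarith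
    have h2 : ∫ t in (0:ℝ)..1, ((1 + 2 * (CG * B) ^ 2) / cg * g (c t) (vel c t) (vel c t) +
          2 * (Real.pi * B) ^ 2) = (1 + 2 * (CG * B) ^ 2) / cg * En g c + 2 * (Real.pi * B) ^ 2 := by
      have i1 : IntervalIntegrable (fun t => (1 + 2 * (CG * B) ^ 2) / cg *
          g (c t) (vel c t) (vel c t)) volume 0 1 :=
        (continuous_const.mul cgv).intervalIntegrable _ _
      have i2 : IntervalIntegrable (fun _ : ℝ => 2 * (Real.pi * B) ^ 2) volume 0 1 :=
        continuous_const.intervalIntegrable _ _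
      rw [intervalIntegral.integral_add i1 i2, intervalIntegral.integral_const_mul,
        intervalIntegral.integral_const]
      simp [En]
    rw [h2] at h1
    refine h1.trans ?_
    rw [hK]
    gcongr
  -- second variation, one field
  have hone : ∀ i, -2 * θ ≤ 2 * u ^ 2 * J i + C * u ^ 3 * K := by
    intro i
    have hA := hC c (V i) hc (hV1 i) (fun t _ => hVB i t) u (by rw [abs_of_pos hu0]; exact hu1)
    have hA' := hC c (V i) hc (hV1 i) (fun t _ => hVB i t) (-u)
      (by rw [abs_neg, abs_of_pos hu0]; exact hu1)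
    obtain ⟨hC1p, hA⟩ := hA
    obtain ⟨hC1m, -⟩ := hA'
    have hV0 : V i 0 = 0 := by
      show Real.sin (Real.pi * 0) • f i 0 = 0
      simp
    have hV11 : V i 1 = 0 := by
      show Real.sin (Real.pi * 1) • f i 1 = 0
      simp
    have hend : ∀ w : ℝ, cvar G c (V i) w 0 = p ∧ cvar G c (V i) w 1 = y := by
      intro w
      refine ⟨?_, ?_⟩
      · show c 0 * bb G (c 0) (V i 0) w = p
        rw [hV0, bb_zero, mul_one, hc0]
      · show c 1 * bb G (c 1) (V i 1) w = y
        rw [hV11, bb_zero, mul_one, hc1]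
    have h1 := hle _ hC1p (hend u).1 (hend u).2
    have h2 := hle _ hC1m (hend (-u)).1 (hend (-u)).2
    have h3 : ∫ t in (0:ℝ)..1, (g (c t) (DV G c (V i) t) (DV G c (V i) t) +
      g (c t) (Rm G (c t) (V i t) (vel c t) (V i t)) (vel c t)) = J i := by
      rw [hJ]
      congr 1
      funext t
      exact hint i t
    rw [h3, abs_of_pos hu0] at hA
    have h4 := (abs_le.1 hA).2
    have h5 : C * u ^ 3 * ∫ t in (0:ℝ)..1, (‖vel c t‖ ^ 2 + ‖deriv (V i) t‖ ^ 2) ≤ C * u ^ 3 * K := by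
      have := hJ2 i
      gcongr
    linarith
  -- Ricci
  have hRicc : ∀ t ∈ Set.Icc (0:ℝ) 1, lam * g (c t) (vel c t) (vel c t) ≤ - ∑ i, ρ i t := by
    intro t ht
    obtain ⟨h1, h2⟩ := crv.2 g hg c hc t ht.1 ht.2
    have h3 := hRic (fun s => c (t * s)) h1 (by simp [hc0]) (h2.trans hcr)
    simp only [mul_one] at h3
    exact h3 (fun i => f i t) (hfO t) (vel c t)
  have hsum : ∑ i, J i ≤ 3 * Real.pi ^ 2 / 2 - lam * ∫ t in (0:ℝ)..1,
      Real.sin (Real.pi * t) ^ 2 * g (c t) (vel c t) (vel c t) := by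
    have ii : ∀ i, IntervalIntegrable (fun t => Real.pi ^ 2 * Real.cos (Real.pi * t) ^ 2 +
        Real.sin (Real.pi * t) ^ 2 * ρ i t) volume 0 1 := fun i =>
      ((continuous_const.mul (ccos.pow 2)).add ((csin.pow 2).mul (cρ i))).intervalIntegrable _ _
    have h1 : ∑ i, J i = ∫ t in (0:ℝ)..1, ∑ i, (Real.pi ^ 2 * Real.cos (Real.pi * t) ^ 2 +
        Real.sin (Real.pi * t) ^ 2 * ρ i t) := by
      rw [intervalIntegral.integral_finsetSum (fun i _ => ii i)]
    have h2 : ∫ t in (0:ℝ)..1, ∑ i, (Real.pi ^ 2 * Real.cos (Real.pi * t) ^ 2 +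
        Real.sin (Real.pi * t) ^ 2 * ρ i t) ≤
        ∫ t in (0:ℝ)..1, (3 * Real.pi ^ 2 * Real.cos (Real.pi * t) ^ 2 -
          lam * (Real.sin (Real.pi * t) ^ 2 * g (c t) (vel c t) (vel c t))) := by
      apply intervalIntegral.integral_mono_on zero_le_one
      · exact (continuous_finsetSum _ (fun i _ =>
          (continuous_const.mul (ccos.pow 2)).add ((csin.pow 2).mul (cρ i)))).intervalIntegrable _ _
      · exact ((continuous_const.mul (ccos.pow 2)).sub
          (continuous_const.mul ((csin.pow 2).mul cgv))).intervalIntegrable _ _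
      · intro t ht
        have h3 := hRicc t ht
        have h5 : ∑ i, (Real.pi ^ 2 * Real.cos (Real.pi * t) ^ 2 +
            Real.sin (Real.pi * t) ^ 2 * ρ i t) = 3 * Real.pi ^ 2 * Real.cos (Real.pi * t) ^ 2 +
              Real.sin (Real.pi * t) ^ 2 * ∑ i, ρ i t := by
          rw [Fin.sum_univ_three, Fin.sum_univ_three]; ring
        rw [h5]
        have h4 := mul_le_mul_of_nonneg_left h3 (sq_nonneg (Real.sin (Real.pi * t)))
        nlinarith [h4]
    have h3 : ∫ t in (0:ℝ)..1, (3 * Real.pi ^ 2 * Real.cos (Real.pi * t) ^ 2 -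
          lam * (Real.sin (Real.pi * t) ^ 2 * g (c t) (vel c t) (vel c t))) =
        3 * Real.pi ^ 2 / 2 - lam * ∫ t in (0:ℝ)..1,
      Real.sin (Real.pi * t) ^ 2 * g (c t) (vel c t) (vel c t) := by
      have i1 : IntervalIntegrable (fun t => 3 * Real.pi ^ 2 * Real.cos (Real.pi * t) ^ 2)
          volume 0 1 := (continuous_const.mul (ccos.pow 2)).intervalIntegrable _ _
      have i2 : IntervalIntegrable (fun t => lam * (Real.sin (Real.pi * t) ^ 2 *
          g (c t) (vel c t) (vel c t))) volume 0 1 :=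
        (continuous_const.mul ((csin.pow 2).mul cgv)).intervalIntegrable _ _
      rw [intervalIntegral.integral_sub i1 i2,
        intervalIntegral.integral_const_mul, intervalIntegral.integral_const_mul, int_cos_sq]
      ring
    rw [h1, ← h3]
    exact h2
  -- the weighted energy
  have hwe : e / 2 - u * (2 + r2 / 2) / 2 ≤ ∫ t in (0:ℝ)..1,
      Real.sin (Real.pi * t) ^ 2 * g (c t) (vel c t) (vel c t) := by
    have h1 : ∫ t in (0:ℝ)..1, Real.sin (Real.pi * t) ^ 2 * g (c t) (vel c t) (vel c t) =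
        1 / 2 * En g c - 1 / 2 * ∫ s in (0:ℝ)..1,
          g (c s) (vel c s) (vel c s) * Real.cos (2 * Real.pi * s) := by
      unfold En
      have i1 : IntervalIntegrable (fun t => 1 / 2 * g (c t) (vel c t) (vel c t)) volume 0 1 :=
        (continuous_const.mul cgv).intervalIntegrable _ _
      have i2 : IntervalIntegrable (fun t => 1 / 2 * (g (c t) (vel c t) (vel c t) *
          Real.cos (2 * Real.pi * t))) volume 0 1 :=
        (continuous_const.mul (cgv.mul (Real.continuous_cos.comp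
          (continuous_const.mul continuous_id)))).intervalIntegrable _ _
      rw [← intervalIntegral.integral_const_mul, ← intervalIntegral.integral_const_mul,
        ← intervalIntegral.integral_sub i1 i2]
      congr 1
      funext t
      have h4 : Real.cos (2 * Real.pi * t) = 1 - 2 * Real.sin (Real.pi * t) ^ 2 := by
        rw [show 2 * Real.pi * t = 2 * (Real.pi * t) by ring, Real.cos_two_mul, Real.cos_sq']
        ring
      show _ = 1 / 2 * g (c t) (vel c t) (vel c t) -
        1 / 2 * (g (c t) (vel c t) (vel c t) * Real.cos (2 * Real.pi * t))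
      rw [h4]; ring
    rw [h1]
    have h2 : Real.sqrt θ * (2 + En g c / 2) ≤ u * (2 + r2 / 2) := by
      have := En_nonneg hg hc
      gcongr
    linarith
  -- conclusion
  have h0 := hone 0
  have h1 := hone 1
  have h2 := hone 2
  rw [Fin.sum_univ_three] at hsum
  have hfin : -6 * θ ≤ u ^ 2 * (-δ + lam * (u * (2 + r2 / 2))) + 3 * (C * K) * u ^ 3 := by
    have h3 : J 0 + J 1 + J 2 ≤ (-δ + lam * (u * (2 + r2 / 2))) / 2 := by
      have h4 := mul_le_mul_of_nonneg_left hwe hlam.le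
      rw [hδdef]
      linarith
    have h5 := mul_le_mul_of_nonneg_left h3 (sq_nonneg u)
    nlinarith
  have hfin2 : u ^ 2 * δ ≤ u ^ 2 * (u * M) := by
    rw [hM]; rw [hθ] at hfin; nlinarith
  have hfin3 : δ ≤ u * M := le_of_mul_le_mul_left hfin2 (by positivity)
  linarith

end Pool.Agent.Helper32.RF
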